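import Mathlib.Algebra.BigOperators.Field
import Mathlib.Topology.Sheaves.Presheaf
import Mathlib.Data.Int.Star
import Mathlib.Algebra.Order.Ring.Star
import Mathlib.Analysis.SpecialFunctions.Log.Basic
import Mathlib.Algebra.Order.Chebyshev
import Mathlib.Algebra.Order.Star.Real
import Mathlib.Combinatorics.SimpleGraph.DegreeSum
import Mathlib.Combinatorics.SimpleGraph.Coloring.Vertex
import Mathlib.Data.Rat.Star
import Mathlib.RingTheory.PiTensorProduct
import Mathlib.Tactic.Algebra.Basic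

-- ======== part 0: formerly Pool.Agent.MP_419040_co.Tower
section MrgPart0

/-! The tower graphs: a binary tree of classes, every inner class is the product of its two
parent classes, and a pair is joined to its two entries. -/

namespace Pool.Agent.MP_419040_co

open Finset

/-- Leaves of the binary tree of depth `k`. -/
def Lf : ℕ → Type
  | 0 => Unit
  | k + 1 => Lf k ⊕ Lf k

instance instFintypeLf : ∀ k, Fintype (Lf k)
  | 0 => inferInstanceAs (Fintype Unit)
  | k + 1 => @instFintypeSum (Lf k) (Lf k) (instFintypeLf k) (instFintypeLf k)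

noncomputable instance instDecEqLf (k : ℕ) : DecidableEq (Lf k) := Classical.decEq _

def someLf : ∀ k, Lf k
  | 0 => ()
  | k + 1 => Sum.inl (someLf k)

instance instNonemptyLf (k : ℕ) : Nonempty (Lf k) := ⟨someLf k⟩

lemma card_Lf : ∀ k, Fintype.card (Lf k) = 2 ^ k
  | 0 => rfl
  | k + 1 => by
    have h : Fintype.card (Lf (k + 1)) = Fintype.card (Lf k ⊕ Lf k) :=
      Fintype.card_congr (Equiv.refl _)
    rw [h, Fintype.card_sum, card_Lf k]; ring

variable {X : Type*}

def lft {k : ℕ} (a : Lf (k + 1) → X) : Lf k → X := fun i => a (Sum.inl i)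
def rgt {k : ℕ} (a : Lf (k + 1) → X) : Lf k → X := fun i => a (Sum.inr i)
def glue {k : ℕ} (a b : Lf k → X) : Lf (k + 1) → X := fun i => Sum.elim a b i

@[simp] lemma lft_glue {k : ℕ} (a b : Lf k → X) : lft (glue a b) = a := rfl
@[simp] lemma rgt_glue {k : ℕ} (a b : Lf k → X) : rgt (glue a b) = b := rfl
lemma glue_lft_rgt {k : ℕ} (a : Lf (k + 1) → X) : glue (lft a) (rgt a) = a := by
  funext i; rcases i with i | i <;> rfl

def splitEquiv (k : ℕ) (X : Type*) : (Lf (k + 1) → X) ≃ (Lf k → X) × (Lf k → X) where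
  toFun a := (lft a, rgt a)
  invFun p := glue p.1 p.2
  left_inv a := glue_lft_rgt a
  right_inv _ := rfl

/-- The class at the root of the tree of depth `k`. -/
abbrev Tp (t k : ℕ) : Type := Lf k → Fin t

/-- Vertices of the tower. -/
def Vtx (t : ℕ) : ℕ → Type
  | 0 => Tp t 0
  | k + 1 => Vtx t k ⊕ Vtx t k ⊕ Tp t (k + 1)

noncomputable instance instFintypeVtx (t : ℕ) : ∀ k, Fintype (Vtx t k)
  | 0 => inferInstanceAs (Fintype (Tp t 0))
  | k + 1 => @instFintypeSum (Vtx t k) (Vtx t k ⊕ Tp t (k + 1)) (instFintypeVtx t k)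
      (@instFintypeSum (Vtx t k) (Tp t (k + 1)) (instFintypeVtx t k) inferInstance)

def vl {t k : ℕ} (a : Vtx t k) : Vtx t (k + 1) := Sum.inl a
def vr {t k : ℕ} (a : Vtx t k) : Vtx t (k + 1) := Sum.inr (Sum.inl a)

def tp (t : ℕ) : ∀ k, Tp t k → Vtx t k
  | 0, σ => σ
  | _ + 1, σ => Sum.inr (Sum.inr σ)

lemma vtx_cases {t k : ℕ} (v : Vtx t (k + 1)) :
    (∃ a, v = vl a) ∨ (∃ a, v = vr a) ∨ ∃ σ, v = tp t (k + 1) σ := by
  rcases v with a | a | σ
  · exact Or.inl ⟨a, rfl⟩
  · exact Or.inr (Or.inl ⟨a, rfl⟩)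
  · exact Or.inr (Or.inr ⟨σ, rfl⟩)

lemma vl_inj {t k : ℕ} : Function.Injective (vl : Vtx t k → Vtx t (k + 1)) :=
  fun _ _ h => Sum.inl_injective h
lemma vr_inj {t k : ℕ} : Function.Injective (vr : Vtx t k → Vtx t (k + 1)) :=
  fun _ _ h => Sum.inl_injective (Sum.inr_injective h)
lemma tp_inj {t : ℕ} : ∀ k, Function.Injective (tp t k)
  | 0 => fun _ _ h => h
  | _ + 1 => fun _ _ h => Sum.inr_injective (Sum.inr_injective h)
lemma vl_ne_vr {t k : ℕ} (a b : Vtx t k) : vl a ≠ vr b := Sum.inl_ne_inr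
lemma vl_ne_tp {t k : ℕ} (a : Vtx t k) (σ : Tp t (k + 1)) : vl a ≠ tp t (k + 1) σ :=
  Sum.inl_ne_inr
lemma vr_ne_tp {t k : ℕ} (a : Vtx t k) (σ : Tp t (k + 1)) : vr a ≠ tp t (k + 1) σ :=
  fun h => Sum.inl_ne_inr (Sum.inr_injective h)

/-- `rel a b`: `b` is one of the two entries of the pair `a`. -/
def rel (t : ℕ) : ∀ k, Vtx t k → Vtx t k → Prop
  | 0, _, _ => False
  | k + 1, u, v =>
      (∃ a b, u = vl a ∧ v = vl b ∧ rel t k a b) ∨
      (∃ a b, u = vr a ∧ v = vr b ∧ rel t k a b) ∨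
      (∃ σ, u = tp t (k + 1) σ ∧ v = vl (tp t k (lft σ))) ∨
      (∃ σ, u = tp t (k + 1) σ ∧ v = vr (tp t k (rgt σ)))

def lev (t : ℕ) : ∀ k, Vtx t k → ℕ
  | 0, _ => 0
  | k + 1, v => Sum.elim (lev t k) (Sum.elim (lev t k) (fun _ => k + 1)) v

lemma lev_tp (t : ℕ) : ∀ k (σ : Tp t k), lev t k (tp t k σ) = k
  | 0, _ => rfl
  | _ + 1, _ => rfl

lemma lev_vl {t k : ℕ} (a : Vtx t k) : lev t (k + 1) (vl a) = lev t k a := rfl
lemma lev_vr {t k : ℕ} (a : Vtx t k) : lev t (k + 1) (vr a) = lev t k a := rfl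

lemma lev_of_rel (t : ℕ) : ∀ k (u v : Vtx t k), rel t k u v → lev t k u = lev t k v + 1
  | 0, _, _, h => h.elim
  | k + 1, u, v, h => by
    rcases h with ⟨a, b, rfl, rfl, h⟩ | ⟨a, b, rfl, rfl, h⟩ | ⟨σ, rfl, rfl⟩ | ⟨σ, rfl, rfl⟩
    · rw [lev_vl, lev_vl]; exact lev_of_rel t k a b h
    · rw [lev_vr, lev_vr]; exact lev_of_rel t k a b h
    · rw [lev_vl, lev_tp, lev_tp]
    · rw [lev_vr, lev_tp, lev_tp]

/-- The tower graph. -/
def Tw (t k : ℕ) : SimpleGraph (Vtx t k) := SimpleGraph.fromRel (rel t k)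

lemma adj_of_rel {t k : ℕ} {u v : Vtx t k} (h : rel t k u v) : (Tw t k).Adj u v := by
  refine ⟨?_, Or.inl h⟩
  rintro rfl
  have := lev_of_rel t k _ _ h
  omega

lemma adj_iff {t k : ℕ} {u v : Vtx t k} : (Tw t k).Adj u v ↔ rel t k u v ∨ rel t k v u :=
  ⟨fun h => h.2, fun h => h.elim adj_of_rel (fun h => (adj_of_rel h).symm)⟩

lemma adj_vl {t k : ℕ} {a b : Vtx t k} (h : (Tw t k).Adj a b) :
    (Tw t (k + 1)).Adj (vl a) (vl b) := by
  rw [adj_iff] at h ⊢
  exact h.imp (fun h => Or.inl ⟨a, b, rfl, rfl, h⟩) (fun h => Or.inl ⟨b, a, rfl, rfl, h⟩)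

lemma adj_vr {t k : ℕ} {a b : Vtx t k} (h : (Tw t k).Adj a b) :
    (Tw t (k + 1)).Adj (vr a) (vr b) := by
  rw [adj_iff] at h ⊢
  exact h.imp (fun h => Or.inr (Or.inl ⟨a, b, rfl, rfl, h⟩))
    (fun h => Or.inr (Or.inl ⟨b, a, rfl, rfl, h⟩))

lemma adj_tp_vl {t k : ℕ} (σ : Tp t (k + 1)) :
    (Tw t (k + 1)).Adj (tp t (k + 1) σ) (vl (tp t k (lft σ))) :=
  adj_of_rel (Or.inr (Or.inr (Or.inl ⟨σ, rfl, rfl⟩)))

lemma adj_tp_vr {t k : ℕ} (σ : Tp t (k + 1)) :
    (Tw t (k + 1)).Adj (tp t (k + 1) σ) (vr (tp t k (rgt σ))) :=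
  adj_of_rel (Or.inr (Or.inr (Or.inr ⟨σ, rfl, rfl⟩)))

def homL (t k : ℕ) : Tw t k →g Tw t (k + 1) := ⟨vl, adj_vl⟩
def homR (t k : ℕ) : Tw t k →g Tw t (k + 1) := ⟨vr, adj_vr⟩

lemma colorable_Tw (t k : ℕ) : (Tw t k).Colorable 2 := by
  refine ⟨SimpleGraph.Coloring.mk (fun v => ⟨lev t k v % 2, Nat.mod_lt _ (by norm_num)⟩) ?_⟩
  intro u v h
  rw [adj_iff] at h
  intro he
  have he' : lev t k u % 2 = lev t k v % 2 := congrArg Fin.val he
  rcases h with h | h
  · have := lev_of_rel t k _ _ h; omega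
  · have := lev_of_rel t k _ _ h; omega

lemma reach_tp (t : ℕ) : ∀ k (v : Vtx t k), ∃ σ, (Tw t k).Reachable v (tp t k σ)
  | 0, v => ⟨v, SimpleGraph.Reachable.refl _⟩
  | k + 1, v => by
    rcases vtx_cases v with ⟨a, rfl⟩ | ⟨a, rfl⟩ | ⟨σ, rfl⟩
    · obtain ⟨τ, h⟩ := reach_tp t k a
      exact ⟨glue τ τ, (h.map (homL t k)).trans (adj_tp_vl (glue τ τ)).symm.reachable⟩
    · obtain ⟨τ, h⟩ := reach_tp t k a
      exact ⟨glue τ τ, (h.map (homR t k)).trans (adj_tp_vr (glue τ τ)).symm.reachable⟩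
    · exact ⟨σ, SimpleGraph.Reachable.refl _⟩

lemma connected_Tw (t k : ℕ) (ht : 0 < t) : (Tw t (k + 1)).Connected := by
  have key : ∀ σ τ : Tp t (k + 1),
      (Tw t (k + 1)).Reachable (tp t (k + 1) σ) (tp t (k + 1) τ) := by
    intro σ τ
    have h1 := (adj_tp_vl σ).reachable
    have h2 := (adj_tp_vl (glue (lft σ) (rgt τ))).symm.reachable
    have h3 := (adj_tp_vr (glue (lft σ) (rgt τ))).reachable
    have h4 := (adj_tp_vr τ).symm.reachable
    exact (h1.trans h2).trans (h3.trans h4)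
  haveI : Nonempty (Vtx t (k + 1)) := ⟨tp t (k + 1) (fun _ => ⟨0, ht⟩)⟩
  refine ⟨fun u v => ?_⟩
  obtain ⟨σ, h⟩ := reach_tp t (k + 1) u
  obtain ⟨τ, h'⟩ := reach_tp t (k + 1) v
  exact (h.trans (key σ τ)).trans h'.symm

/-- The array entries a vertex of the tower depends on. -/
def dep (t : ℕ) : ∀ k, Vtx t k → Lf k → Fin t → Prop
  | 0, v, i, j => (show Tp t 0 from v) i = j
  | k + 1, v, i, j =>
      (∃ a i', v = vl a ∧ i = Sum.inl i' ∧ dep t k a i' j) ∨
      (∃ a i', v = vr a ∧ i = Sum.inr i' ∧ dep t k a i' j) ∨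
      (∃ σ, v = tp t (k + 1) σ ∧ σ i = j)

lemma dep_vl {t k : ℕ} (a : Vtx t k) (i : Lf (k + 1)) (j : Fin t) :
    dep t (k + 1) (vl a) i j ↔ ∃ i', i = Sum.inl i' ∧ dep t k a i' j := by
  constructor
  · rintro (⟨a', i', h, hi, hd⟩ | ⟨a', i', h, -, -⟩ | ⟨σ, h, -⟩)
    · rw [vl_inj h]; exact ⟨i', hi, hd⟩
    · exact absurd h (vl_ne_vr _ _)
    · exact absurd h (vl_ne_tp _ _)
  · rintro ⟨i', hi, hd⟩; exact Or.inl ⟨a, i', rfl, hi, hd⟩

lemma dep_vr {t k : ℕ} (a : Vtx t k) (i : Lf (k + 1)) (j : Fin t) :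
    dep t (k + 1) (vr a) i j ↔ ∃ i', i = Sum.inr i' ∧ dep t k a i' j := by
  constructor
  · rintro (⟨a', i', h, -, -⟩ | ⟨a', i', h, hi, hd⟩ | ⟨σ, h, -⟩)
    · exact absurd h.symm (vl_ne_vr _ _)
    · rw [vr_inj h]; exact ⟨i', hi, hd⟩
    · exact absurd h (vr_ne_tp _ _)
  · rintro ⟨i', hi, hd⟩; exact Or.inr (Or.inl ⟨a, i', rfl, hi, hd⟩)

lemma dep_tp {t : ℕ} : ∀ (k : ℕ) (σ : Tp t k) (i : Lf k) (j : Fin t),
    dep t k (tp t k σ) i j ↔ σ i = j
  | 0, _, _, _ => Iff.rfl
  | k + 1, σ, i, j => by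
    constructor
    · rintro (⟨a', i', h, -, -⟩ | ⟨a', i', h, -, -⟩ | ⟨σ', h, hd⟩)
      · exact absurd h.symm (vl_ne_tp _ _)
      · exact absurd h.symm (vr_ne_tp _ _)
      · rw [tp_inj _ h]; exact hd
    · intro h; exact Or.inr (Or.inr ⟨σ, rfl, h⟩)

lemma dep_nonempty (t : ℕ) : ∀ k (v : Vtx t k), ∃ i j, dep t k v i j
  | 0, v => ⟨(), (show Tp t 0 from v) (), rfl⟩
  | k + 1, v => by
    rcases vtx_cases v with ⟨a, rfl⟩ | ⟨a, rfl⟩ | ⟨σ, rfl⟩
    · obtain ⟨i, j, h⟩ := dep_nonempty t k a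
      exact ⟨Sum.inl i, j, (dep_vl _ _ _).2 ⟨i, rfl, h⟩⟩
    · obtain ⟨i, j, h⟩ := dep_nonempty t k a
      exact ⟨Sum.inr i, j, (dep_vr _ _ _).2 ⟨i, rfl, h⟩⟩
    · exact ⟨someLf _, σ (someLf _), (dep_tp _ _ _ _).2 rfl⟩

lemma dep_inj (t : ℕ) : ∀ k (u v : Vtx t k), (∀ i j, dep t k u i j ↔ dep t k v i j) → u = v
  | 0, u, v, h => by
    funext i
    exact ((h i _).1 rfl).symm
  | k + 1, u, v, h => by
    have hlr : ∀ a b : Vtx t k, ¬ ∀ i j, dep t (k + 1) (vl a) i j ↔ dep t (k + 1) (vr b) i j := by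
      intro a b h
      obtain ⟨i, j, hd⟩ := dep_nonempty t k a
      obtain ⟨i', hi, -⟩ := (dep_vr _ _ _).1 ((h (Sum.inl i) j).1 ((dep_vl _ _ _).2 ⟨i, rfl, hd⟩))
      exact Sum.inl_ne_inr hi
    have hlt : ∀ (a : Vtx t k) (σ : Tp t (k + 1)),
        ¬ ∀ i j, dep t (k + 1) (vl a) i j ↔ dep t (k + 1) (tp t (k + 1) σ) i j := by
      intro a σ h
      obtain ⟨i', hi, -⟩ := (dep_vl _ _ _).1
        ((h (Sum.inr (someLf k)) _).2 ((dep_tp _ _ _ _).2 rfl))
      exact Sum.inr_ne_inl hi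
    have hrt : ∀ (a : Vtx t k) (σ : Tp t (k + 1)),
        ¬ ∀ i j, dep t (k + 1) (vr a) i j ↔ dep t (k + 1) (tp t (k + 1) σ) i j := by
      intro a σ h
      obtain ⟨i', hi, -⟩ := (dep_vr _ _ _).1
        ((h (Sum.inl (someLf k)) _).2 ((dep_tp _ _ _ _).2 rfl))
      exact Sum.inl_ne_inr hi
    rcases vtx_cases u with ⟨a, rfl⟩ | ⟨a, rfl⟩ | ⟨σ, rfl⟩ <;>
      rcases vtx_cases v with ⟨b, rfl⟩ | ⟨b, rfl⟩ | ⟨τ, rfl⟩
    · congr 1
      refine dep_inj t k a b fun i j => ?_
      have := h (Sum.inl i) j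
      rw [dep_vl, dep_vl] at this
      constructor
      · intro hd
        obtain ⟨i', hi, hd'⟩ := this.1 ⟨i, rfl, hd⟩
        rw [Sum.inl_injective hi]; exact hd'
      · intro hd
        obtain ⟨i', hi, hd'⟩ := this.2 ⟨i, rfl, hd⟩
        rw [Sum.inl_injective hi]; exact hd'
    · exact absurd h (hlr _ _)
    · exact absurd h (hlt _ _)
    · exact absurd (fun i j => (h i j).symm) (hlr _ _)
    · congr 1
      refine dep_inj t k a b fun i j => ?_
      have := h (Sum.inr i) j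
      rw [dep_vr, dep_vr] at this
      constructor
      · intro hd
        obtain ⟨i', hi, hd'⟩ := this.1 ⟨i, rfl, hd⟩
        rw [Sum.inr_injective hi]; exact hd'
      · intro hd
        obtain ⟨i', hi, hd'⟩ := this.2 ⟨i, rfl, hd⟩
        rw [Sum.inr_injective hi]; exact hd'
    · exact absurd h (hrt _ _)
    · exact absurd (fun i j => (h i j).symm) (hlt _ _)
    · exact absurd (fun i j => (h i j).symm) (hrt _ _)
    · congr 1
      funext i
      exact ((dep_tp _ _ _ _).1 ((h i _).1 ((dep_tp _ _ _ _).2 rfl))).symm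

end Pool.Agent.MP_419040_co

end MrgPart0

-- ======== part 1: formerly Pool.Agent.MP_419040_co.Blow
section MrgPart1

/-! Averages: Jensen, the blow-up inequality, and a fibre bound. -/

namespace Pool.Agent.MP_419040_co

open Finset BigOperators

open Classical in
/-- Real indicator of a proposition. -/
noncomputable def ind (P : Prop) : ℝ := if P then 1 else 0

lemma ind_nonneg (P : Prop) : 0 ≤ ind P := by unfold ind; split_ifs <;> norm_num
lemma ind_le_one (P : Prop) : ind P ≤ 1 := by unfold ind; split_ifs <;> norm_num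
lemma ind_pos {P : Prop} (h : P) : ind P = 1 := by unfold ind; rw [if_pos h]
lemma ind_neg {P : Prop} (h : ¬P) : ind P = 0 := by unfold ind; rw [if_neg h]
lemma ind_mono {P Q : Prop} (h : P → Q) : ind P ≤ ind Q := by
  by_cases hP : P
  · rw [ind_pos hP, ind_pos (h hP)]
  · rw [ind_neg hP]; exact ind_nonneg _
lemma ind_and (P Q : Prop) : ind (P ∧ Q) = ind P * ind Q := by
  by_cases hP : P <;> by_cases hQ : Q <;> simp [ind, hP, hQ]
lemma ind_forall {α : Type*} [Fintype α] (P : α → Prop) : ind (∀ a, P a) = ∏ a, ind (P a) := by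
  by_cases h : ∀ a, P a
  · rw [ind_pos h, Finset.prod_eq_one (fun a _ => ind_pos (h a))]
  · rw [ind_neg h]
    push Not at h
    obtain ⟨a, ha⟩ := h
    exact (Finset.prod_eq_zero (Finset.mem_univ a) (ind_neg ha)).symm

lemma sum_ind_le {α : Type*} (S : Finset α) (P : α → Prop) (Q : Prop)
    (hu : ∀ a ∈ S, ∀ b ∈ S, P a → P b → a = b) (hQ : ∀ a ∈ S, P a → Q) :
    ∑ a ∈ S, ind (P a) ≤ ind Q := by
  by_cases h : ∃ a ∈ S, P a
  · obtain ⟨a, ha, hP⟩ := h
    rw [Finset.sum_eq_single_of_mem a ha, ind_pos hP, ind_pos (hQ a ha hP)]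
    intro b hb hba
    exact ind_neg fun hb' => hba (hu b hb a ha hb' hP)
  · push Not at h
    rw [Finset.sum_eq_zero (fun a ha => ind_neg (h a ha))]
    exact ind_nonneg _

lemma ind_le_sum {α : Type*} (S : Finset α) (P : α → Prop) (Q : Prop)
    (hQ : Q → ∃ a ∈ S, P a) : ind Q ≤ ∑ a ∈ S, ind (P a) := by
  by_cases h : Q
  · obtain ⟨a, ha, hP⟩ := hQ h
    rw [ind_pos h, ← ind_pos hP]
    exact Finset.single_le_sum (f := fun a => ind (P a)) (fun a _ => ind_nonneg _) ha
  · rw [ind_neg h]; exact Finset.sum_nonneg fun a _ => ind_nonneg _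

lemma jensen_pow {α : Type*} [Fintype α] [Nonempty α] (g : α → ℝ) (hg : ∀ a, 0 ≤ g a) (m : ℕ) :
    (𝔼 a, g a) ^ m ≤ 𝔼 a, g a ^ m := by
  rcases m with _ | m
  · simp
  · have hc : (0 : ℝ) < Fintype.card α := by exact_mod_cast Fintype.card_pos
    rw [Fintype.expect_eq_sum_div_card, Fintype.expect_eq_sum_div_card, div_pow,
      div_le_div_iff₀ (by positivity) hc]
    have := pow_sum_le_card_mul_sum_pow (s := Finset.univ) (f := g) (fun a _ => hg a) m
    rw [Finset.card_univ] at this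
    calc (∑ a, g a) ^ (m + 1) * (Fintype.card α : ℝ)
        ≤ ((Fintype.card α : ℝ) ^ m * ∑ a, g a ^ (m + 1)) * (Fintype.card α : ℝ) := by gcongr
      _ = _ := by ring

lemma expect_pair {α β : Type*} [Fintype α] [Fintype β] (f : α × β → ℝ) :
    𝔼 p, f p = 𝔼 a, 𝔼 b, f (a, b) := by
  rw [← Finset.univ_product_univ, Finset.expect_product]

lemma expect_split {X : Type*} [Fintype X] (k : ℕ) (f : (Lf (k + 1) → X) → ℝ) :
    𝔼 a, f a = 𝔼 a, 𝔼 b, f (glue a b) := by
  rw [Fintype.expect_equiv (splitEquiv k X) f (fun p => f (glue p.1 p.2))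
    (fun a => by simp [splitEquiv, glue_lft_rgt]), expect_pair]

lemma prod_split {X : Type*} [Fintype X] (k : ℕ) (f : (Lf (k + 1) → X) → ℝ) :
    ∏ a, f a = ∏ a, ∏ b, f (glue a b) := by
  rw [Fintype.prod_equiv (splitEquiv k X) f (fun p => f (glue p.1 p.2))
    (fun a => by simp [splitEquiv, glue_lft_rgt]), Fintype.prod_prod_type]

lemma card_Tp_succ (t k : ℕ) :
    Fintype.card (Tp t (k + 1)) = Fintype.card (Tp t k) * Fintype.card (Tp t k) := by
  rw [Fintype.card_congr (splitEquiv k (Fin t)), Fintype.card_prod]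

def zeroEquiv (Y : Type*) : (Lf 0 → Y) ≃ Y where
  toFun a := a ()
  invFun y := fun _ => y
  left_inv _ := rfl
  right_inv _ := rfl

lemma card_Tp_zero (t : ℕ) : Fintype.card (Tp t 0) = t := by
  rw [Fintype.card_congr (zeroEquiv (Fin t)), Fintype.card_fin]

/-- The transversal of the array `A` chosen by `σ`. -/
def sel {X : Type*} {t k : ℕ} (A : Lf k → Fin t → X) (σ : Tp t k) : Lf k → X :=
  fun i => A i (σ i)

lemma sel_glue {X : Type*} {t k : ℕ} (A B : Lf k → Fin t → X) (σ τ : Tp t k) :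
    sel (glue A B) (glue σ τ) = glue (sel A σ) (sel B τ) := by
  funext i; rcases i with i | i <;> rfl

lemma blowup {X : Type*} [Fintype X] [Nonempty X] (t : ℕ) :
    ∀ (k : ℕ) (f : (Lf k → X) → ℝ), (∀ a, 0 ≤ f a) →
      (𝔼 a, f a) ^ Fintype.card (Tp t k) ≤ 𝔼 A : Lf k → Fin t → X, ∏ σ : Tp t k, f (sel A σ)
  | 0, f, _ => by
    rw [card_Tp_zero, Fintype.expect_equiv (zeroEquiv X) f (fun x => f (fun _ => x))
      (fun a => rfl), Finset.expect_pow, Fintype.piFinset_univ]
    apply le_of_eq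
    symm
    refine Fintype.expect_equiv (zeroEquiv (Fin t → X)) _ _ fun A => ?_
    exact Fintype.prod_equiv (zeroEquiv (Fin t)) _ _ fun σ => rfl
  | k + 1, f, hf => by
    rw [card_Tp_succ, expect_split k f, expect_split k, pow_mul]
    simp_rw [prod_split k, sel_glue]
    set M := Fintype.card (Tp t k) with hM
    have h1 : ∀ B : Lf k → Fin t → X,
        (𝔼 a : Lf k → X, ∏ τ : Tp t k, f (glue a (sel B τ))) ^ M ≤
          𝔼 A : Lf k → Fin t → X, ∏ σ : Tp t k, ∏ τ : Tp t k, f (glue (sel A σ) (sel B τ)) :=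
      fun B => blowup t k (fun a => ∏ τ : Tp t k, f (glue a (sel B τ)))
        (fun a => Finset.prod_nonneg fun τ _ => hf _)
    have h2 : ∀ a : Lf k → X, (𝔼 b : Lf k → X, f (glue a b)) ^ M ≤
        𝔼 B : Lf k → Fin t → X, ∏ τ : Tp t k, f (glue a (sel B τ)) :=
      fun a => blowup t k (fun b => f (glue a b)) (fun b => hf _)
    have hn : ∀ a : Lf k → X, 0 ≤ 𝔼 b : Lf k → X, f (glue a b) :=
      fun a => Finset.expect_nonneg fun b _ => hf _
    calc ((𝔼 a : Lf k → X, 𝔼 b : Lf k → X, f (glue a b)) ^ M) ^ M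
        ≤ (𝔼 a : Lf k → X, (𝔼 b : Lf k → X, f (glue a b)) ^ M) ^ M :=
          pow_le_pow_left₀ (pow_nonneg (Finset.expect_nonneg fun a _ => hn a) _)
            (jensen_pow _ hn M) M
      _ ≤ (𝔼 a : Lf k → X, 𝔼 B : Lf k → Fin t → X, ∏ τ : Tp t k, f (glue a (sel B τ))) ^ M :=
          pow_le_pow_left₀ (Finset.expect_nonneg fun a _ => pow_nonneg (hn a) _)
            (Finset.expect_le_expect fun a _ => h2 a) M
      _ = (𝔼 B : Lf k → Fin t → X, 𝔼 a : Lf k → X, ∏ τ : Tp t k, f (glue a (sel B τ))) ^ M := by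
          rw [Finset.expect_comm]
      _ ≤ 𝔼 B : Lf k → Fin t → X,
            (𝔼 a : Lf k → X, ∏ τ : Tp t k, f (glue a (sel B τ))) ^ M :=
          jensen_pow _ (fun B => Finset.expect_nonneg fun a _ =>
            Finset.prod_nonneg fun τ _ => hf _) M
      _ ≤ 𝔼 B : Lf k → Fin t → X, 𝔼 A : Lf k → Fin t → X,
            ∏ σ : Tp t k, ∏ τ : Tp t k, f (glue (sel A σ) (sel B τ)) :=
          Finset.expect_le_expect fun B _ => h1 B
      _ = _ := by rw [Finset.expect_comm]

lemma expect_ind_le_of_subset {X : Type*} [Fintype X] (P : X → Prop) (S : Finset X) (Δ : ℝ)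
    (hS : (S.card : ℝ) ≤ Δ) (h : ∀ x, P x → x ∈ S) :
    𝔼 x, ind (P x) ≤ Δ / Fintype.card X := by
  classical
  rw [Fintype.expect_eq_sum_div_card]
  apply div_le_div_of_nonneg_right _ (Nat.cast_nonneg _)
  calc ∑ x, ind (P x) ≤ ∑ x, (if x ∈ S then (1 : ℝ) else 0) := by
        refine Finset.sum_le_sum fun x _ => ?_
        by_cases hx : P x
        · rw [ind_pos hx, if_pos (h x hx)]
        · rw [ind_neg hx]; split_ifs <;> norm_num
    _ = S.card := by simp
    _ ≤ Δ := hS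

lemma fibre_bound {J X : Type*} [Fintype J] [DecidableEq J] [Fintype X] [Nonempty X] (e : J)
    (P : (J → X) → Prop) (Δ : ℝ)
    (h : ∀ A : J → X, ∃ S : Finset X, (S.card : ℝ) ≤ Δ ∧
      ∀ A' : J → X, (∀ e', e' ≠ e → A' e' = A e') → P A' → A' e ∈ S) :
    𝔼 A, ind (P A) ≤ Δ / Fintype.card X := by
  rw [Fintype.expect_equiv (Equiv.funSplitAt e X) (fun A => ind (P A))
    (fun p => ind (P ((Equiv.funSplitAt e X).symm p))) (fun A => by rw [Equiv.symm_apply_apply]), expect_pair,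
    Finset.expect_comm]
  refine Finset.expect_le Finset.univ_nonempty fun r _ => ?_
  obtain ⟨S, hS, hP⟩ := h ((Equiv.funSplitAt e X).symm (Classical.arbitrary X, r))
  refine expect_ind_le_of_subset _ S Δ hS fun x hx => ?_
  have := hP ((Equiv.funSplitAt e X).symm (x, r)) (fun e' he' => by
    simp [Equiv.funSplitAt, Equiv.piSplitAt, he']) hx
  simpa [Equiv.funSplitAt, Equiv.piSplitAt] using this

end Pool.Agent.MP_419040_co

end MrgPart1

-- ======== part 2: formerly Pool.Agent.MP_419040_co.Spin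
section MrgPart2

/-! Spin estimates: few arrays of common neighbours keep the centroid long. -/

namespace Pool.Agent.MP_419040_co

open Finset BigOperators Real

def sp (b : Bool) : ℝ := if b then 1 else -1

lemma abs_sp (b : Bool) : |sp b| = 1 := by cases b <;> simp [sp]

noncomputable def lam : ℝ := Real.log (3 / 2) / 2
noncomputable def LL : ℝ := Real.log (13 / 12)

lemma exp_two_lam : Real.exp (2 * lam) = 3 / 2 := by
  rw [lam, mul_div_cancel₀ _ (two_ne_zero), Real.exp_log (by norm_num)]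

lemma exp_neg_two_lam : Real.exp (-(2 * lam)) = 2 / 3 := by
  rw [Real.exp_neg, exp_two_lam]; norm_num

lemma exp_LL : Real.exp LL = 13 / 12 := Real.exp_log (by norm_num)

lemma LL_nonneg : 0 ≤ LL := Real.log_nonneg (by norm_num)
lemma LL_le : LL ≤ 1 / 12 := by
  have := Real.log_le_sub_one_of_pos (show (0 : ℝ) < 13 / 12 by norm_num)
  rw [LL]; linarith
lemma lam_nonneg : 0 ≤ lam := div_nonneg (Real.log_nonneg (by norm_num)) (by norm_num)

lemma expect_bool (f : Bool → ℝ) : 𝔼 b, f b = (f true + f false) / 2 := by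
  rw [Fintype.expect_eq_sum_div_card]; simp

lemma expect_pi_prod {ι β : Type*} [Fintype ι] [DecidableEq ι] [Fintype β] (f : ι → β → ℝ) :
    𝔼 z : ι → β, ∏ i, f i (z i) = ∏ i, 𝔼 b, f i b := by
  simp_rw [Fintype.expect_eq_sum_div_card]
  rw [Finset.prod_div_distrib, Finset.prod_univ_sum, Fintype.piFinset_univ, Finset.prod_const,
    Fintype.card_fun, Finset.card_univ]
  push_cast
  rfl

lemma one_site (x y : Bool) (θ : ℝ) (hθ : |θ| ≤ 1) :
    𝔼 b : Bool, Real.exp (sp b * (lam * (sp x + sp y) + θ)) ≤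
      Real.exp (LL * (1 + sp x * sp y) / 2 + θ * (5 / 13) * (sp x + sp y) / 2 + θ ^ 2) := by
  have h1 : Real.exp θ ≤ 1 + θ + θ ^ 2 := by
    have := (abs_le.1 (Real.abs_exp_sub_one_sub_id_le hθ)).2; linarith
  have h2 : Real.exp (-θ) ≤ 1 - θ + θ ^ 2 := by
    have := (abs_le.1 (Real.abs_exp_sub_one_sub_id_le (x := -θ) (by rwa [abs_neg]))).2
    nlinarith
  rw [expect_bool]
  cases x <;> cases y <;> simp only [sp, if_true, Bool.false_eq_true, if_false]
  · have e1 : 1 * (lam * (-1 + -1) + θ) = -(2 * lam) + θ := by ring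
    have e2 : -1 * (lam * (-1 + -1) + θ) = 2 * lam + -θ := by ring
    have e3 : LL * (1 + -1 * -1) / 2 + θ * (5 / 13) * (-1 + -1) / 2 + θ ^ 2 =
      LL + (-(5 / 13) * θ + θ ^ 2) := by ring
    rw [e1, e2, e3, Real.exp_add, Real.exp_add, Real.exp_add LL, exp_two_lam, exp_neg_two_lam,
      exp_LL]
    have := Real.add_one_le_exp (-(5 / 13) * θ + θ ^ 2)
    linarith
  · have e1 : 1 * (lam * (-1 + 1) + θ) = θ := by ring
    have e2 : -1 * (lam * (-1 + 1) + θ) = -θ := by ring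
    have e3 : LL * (1 + -1 * 1) / 2 + θ * (5 / 13) * (-1 + 1) / 2 + θ ^ 2 = θ ^ 2 := by ring
    rw [e1, e2, e3]
    have := Real.add_one_le_exp (θ ^ 2)
    linarith
  · have e1 : 1 * (lam * (1 + -1) + θ) = θ := by ring
    have e2 : -1 * (lam * (1 + -1) + θ) = -θ := by ring
    have e3 : LL * (1 + 1 * -1) / 2 + θ * (5 / 13) * (1 + -1) / 2 + θ ^ 2 = θ ^ 2 := by ring
    rw [e1, e2, e3]
    have := Real.add_one_le_exp (θ ^ 2)
    linarith
  · have e1 : 1 * (lam * (1 + 1) + θ) = 2 * lam + θ := by ring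
    have e2 : -1 * (lam * (1 + 1) + θ) = -(2 * lam) + -θ := by ring
    have e3 : LL * (1 + 1 * 1) / 2 + θ * (5 / 13) * (1 + 1) / 2 + θ ^ 2 =
      LL + ((5 / 13) * θ + θ ^ 2) := by ring
    rw [e1, e2, e3, Real.exp_add, Real.exp_add, Real.exp_add LL, exp_two_lam, exp_neg_two_lam,
      exp_LL]
    have := Real.add_one_le_exp ((5 / 13) * θ + θ ^ 2)
    linarith

lemma sum_sp {α : Type*} [Fintype α] (z : α → Bool) :
    ∑ p, sp (z p) = 2 * ((Finset.univ.filter fun p => z p = true).card : ℝ) - Fintype.card α := by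
  have : ∀ p, sp (z p) = 2 * (if z p = true then (1 : ℝ) else 0) - 1 := fun p => by
    cases z p <;> simp [sp] <;> norm_num
  simp_rw [this]
  rw [Finset.sum_sub_distrib, ← Finset.mul_sum, Finset.sum_boole]
  simp

lemma sum_eq_card_mul {α : Type*} [Fintype α] [Nonempty α] (f : α → ℝ) :
    ∑ a, f a = Fintype.card α * 𝔼 a, f a := by
  have hc : (0 : ℝ) < Fintype.card α := by exact_mod_cast Fintype.card_pos
  rw [Fintype.expect_eq_sum_div_card]; field_simp

lemma one_coord {T : Type*} [Fintype T] [DecidableEq T] [Nonempty T] (x y : T → Bool) :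
    𝔼 z : T × T → Bool, Real.exp (lam * ∑ p, sp (z p) * (sp (x p.1) + sp (y p.2)) +
        (Fintype.card (T × T) : ℝ) / 8 * (𝔼 p, sp (z p)) ^ 2) ≤
      ((Fintype.card (T × T) : ℝ) + 1) * Real.exp ((Fintype.card (T × T) : ℝ) *
        (LL / 2 + ((𝔼 a, sp (x a)) ^ 2 + (𝔼 a, sp (y a)) ^ 2) / 16)) := by
  set S : ℕ := Fintype.card (T × T) with hS
  have hS0 : (0 : ℝ) < S := by exact_mod_cast Fintype.card_pos
  set mx : ℝ := 𝔼 a, sp (x a) with hmx
  set my : ℝ := 𝔼 a, sp (y a) with hmy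
  set th : ℕ → ℝ := fun i => (2 * (i : ℝ) - S) / (4 * S) with hth
  have hpt : ∀ z : T × T → Bool, Real.exp (lam * ∑ p, sp (z p) * (sp (x p.1) + sp (y p.2)) +
        (S : ℝ) / 8 * (𝔼 p, sp (z p)) ^ 2) ≤ ∑ i ∈ Finset.range (S + 1),
        Real.exp (-(2 * S * th i ^ 2)) *
          ∏ p : T × T, Real.exp (sp (z p) * (lam * (sp (x p.1) + sp (y p.2)) + th i)) := by
    intro z
    set i := (Finset.univ.filter fun p => z p = true).card with hi
    have hiS : i ∈ Finset.range (S + 1) := by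
      rw [Finset.mem_range, Nat.lt_succ_iff, hS, ← Finset.card_univ]
      exact Finset.card_filter_le _ _
    refine le_trans (le_of_eq ?_) (Finset.single_le_sum (f := fun i =>
      Real.exp (-(2 * S * th i ^ 2)) *
          ∏ p : T × T, Real.exp (sp (z p) * (lam * (sp (x p.1) + sp (y p.2)) + th i)))
      (fun i _ => by positivity) hiS)
    rw [← Real.exp_sum, ← Real.exp_add]
    congr 1
    simp_rw [mul_add (sp (z _)), Finset.sum_add_distrib]
    rw [← Finset.sum_mul, Fintype.expect_eq_sum_div_card, sum_sp, ← hi, ← hS]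
    have e : ∑ p : T × T, sp (z p) * (lam * (sp (x p.1) + sp (y p.2))) =
        lam * (∑ p : T × T, sp (z p) * sp (x p.1) + ∑ p : T × T, sp (z p) * sp (y p.2)) := by
      rw [← Finset.sum_add_distrib, Finset.mul_sum]
      exact Finset.sum_congr rfl fun p _ => by ring
    rw [e]
    simp only [hth]
    field_simp
    ring
  have hterm : ∀ i ∈ Finset.range (S + 1), 𝔼 z : T × T → Bool, Real.exp (-(2 * S * th i ^ 2)) *
      ∏ p : T × T, Real.exp (sp (z p) * (lam * (sp (x p.1) + sp (y p.2)) + th i)) ≤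
      Real.exp ((S : ℝ) * (LL / 2 + (mx ^ 2 + my ^ 2) / 16)) := by
    intro i hi
    have hiS : (i : ℝ) ≤ S := by exact_mod_cast Nat.lt_succ_iff.1 (Finset.mem_range.1 hi)
    have hi0 : (0 : ℝ) ≤ i := Nat.cast_nonneg _
    have hθ : |th i| ≤ 1 := by
      simp only [hth]
      rw [abs_le, le_div_iff₀ (by positivity), div_le_iff₀ (by positivity)]
      constructor <;> nlinarith
    rw [← Finset.mul_expect, expect_pi_prod
      (fun (p : T × T) (b : Bool) => Real.exp (sp b * (lam * (sp (x p.1) + sp (y p.2)) + th i)))]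
    set θ := th i
    calc Real.exp (-(2 * S * θ ^ 2)) *
          ∏ p : T × T, 𝔼 b : Bool, Real.exp (sp b * (lam * (sp (x p.1) + sp (y p.2)) + θ))
        ≤ Real.exp (-(2 * S * θ ^ 2)) * ∏ p : T × T, Real.exp (LL * (1 + sp (x p.1) * sp (y p.2))
            / 2 + θ * (5 / 13) * (sp (x p.1) + sp (y p.2)) / 2 + θ ^ 2) := by
          gcongr with p
          exact one_site _ _ _ hθ
      _ ≤ _ := by
          rw [← Real.exp_sum, ← Real.exp_add, Real.exp_le_exp, sum_eq_card_mul, ← hS, expect_pair]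
          have e : ∀ a : T, 𝔼 b : T, (LL * (1 + sp (x a) * sp (y b)) / 2 +
              θ * (5 / 13) * (sp (x a) + sp (y b)) / 2 + θ ^ 2) =
              (LL / 2 + θ * (5 / 13) * my / 2 + θ ^ 2) +
                (LL * my / 2 + θ * (5 / 13) / 2) * sp (x a) := by
            intro a
            have : ∀ b : T, LL * (1 + sp (x a) * sp (y b)) / 2 +
                θ * (5 / 13) * (sp (x a) + sp (y b)) / 2 + θ ^ 2 =
                (LL / 2 + θ * (5 / 13) * sp (x a) / 2 + θ ^ 2) +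
                  (LL * sp (x a) / 2 + θ * (5 / 13) / 2) * sp (y b) := fun b => by ring
            simp_rw [this]
            rw [Finset.expect_add_distrib, Fintype.expect_const, ← Finset.mul_expect, ← hmy]
            ring
          simp_rw [e]
          rw [Finset.expect_add_distrib, Fintype.expect_const, ← Finset.mul_expect, ← hmx]
          have key : LL * mx * my / 2 + θ * (5 / 13) * (mx + my) / 2 - θ ^ 2 ≤
              (mx ^ 2 + my ^ 2) / 16 := by
            have a1 : LL * mx * my / 2 ≤ (mx ^ 2 + my ^ 2) / 48 := by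
              have b1 : LL * mx * my / 2 ≤ LL * (mx ^ 2 + my ^ 2) / 4 := by
                nlinarith [mul_nonneg LL_nonneg (sq_nonneg (mx - my))]
              have b2 : LL * (mx ^ 2 + my ^ 2) ≤ 1 / 12 * (mx ^ 2 + my ^ 2) :=
                mul_le_mul_of_nonneg_right LL_le (by positivity)
              linarith
            nlinarith [sq_nonneg (θ - 5 / 52 * (mx + my)), sq_nonneg (mx - my), sq_nonneg mx,
              sq_nonneg my]
          nlinarith [mul_le_mul_of_nonneg_left key hS0.le]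
  calc _ ≤ 𝔼 z : T × T → Bool, ∑ i ∈ Finset.range (S + 1),
        Real.exp (-(2 * S * th i ^ 2)) *
          ∏ p : T × T, Real.exp (sp (z p) * (lam * (sp (x p.1) + sp (y p.2)) + th i)) :=
        Finset.expect_le_expect fun z _ => hpt z
    _ = ∑ i ∈ Finset.range (S + 1), 𝔼 z : T × T → Bool, Real.exp (-(2 * S * th i ^ 2)) *
          ∏ p : T × T, Real.exp (sp (z p) * (lam * (sp (x p.1) + sp (y p.2)) + th i)) := by
        rw [Finset.expect_sum_comm]
    _ ≤ ∑ _i ∈ Finset.range (S + 1), Real.exp ((S : ℝ) * (LL / 2 + (mx ^ 2 + my ^ 2) / 16)) :=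
        Finset.sum_le_sum hterm
    _ = _ := by rw [Finset.sum_const, Finset.card_range, nsmul_eq_mul]; push_cast; ring

/-- Inner product of two sign vectors. -/
def ip {m : ℕ} (x y : Fin m → Bool) : ℝ := ∑ j, sp (x j) * sp (y j)

lemma ip_comm {m : ℕ} (x y : Fin m → Bool) : ip x y = ip y x :=
  Finset.sum_congr rfl fun _ _ => mul_comm _ _

/-- Squared length of the centroid. -/
noncomputable def pot {m : ℕ} {α : Type*} [Fintype α] (u : α → Fin m → Bool) : ℝ :=
  ∑ j, (𝔼 a, sp (u a j)) ^ 2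

lemma pot_nonneg {m : ℕ} {α : Type*} [Fintype α] (u : α → Fin m → Bool) : 0 ≤ pot u :=
  Finset.sum_nonneg fun _ _ => sq_nonneg _

lemma pot_le {m : ℕ} {α : Type*} [Fintype α] [Nonempty α] (u : α → Fin m → Bool) :
    pot u ≤ m := by
  have : ∀ j, (𝔼 a, sp (u a j)) ^ 2 ≤ 1 := fun j => by
    rw [sq_le_one_iff_abs_le_one]
    refine (Finset.abs_expect_le _ _).trans (Finset.expect_le Finset.univ_nonempty fun a _ => ?_)
    rw [abs_sp]
  calc pot u ≤ ∑ _j : Fin m, (1 : ℝ) := Finset.sum_le_sum fun j _ => this j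
    _ = m := by simp

/-- Common neighbours of all pairs whose centroid is not shorter. -/
def Bad {m : ℕ} {T : Type*} [Fintype T] (r γ : ℝ) (u v : T → Fin m → Bool)
    (w : T × T → Fin m → Bool) : Prop :=
  (∀ p, r ≤ ip (w p) (u p.1) ∧ r ≤ ip (w p) (v p.2)) ∧ (pot u + pot v) / 2 - γ * m ≤ pot w

lemma bad_prob {m : ℕ} {T : Type*} [Fintype T] [DecidableEq T] [Nonempty T] (r γ : ℝ)
    (u v : T → Fin m → Bool) :
    𝔼 w : T × T → Fin m → Bool, ind (Bad r γ u v w) ≤
      ((Fintype.card (T × T) : ℝ) + 1) ^ m *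
        Real.exp ((Fintype.card (T × T) : ℝ) * (m * LL / 2 + γ * m / 8 - 2 * lam * r)) := by
  set S : ℕ := Fintype.card (T × T) with hS
  have hS0 : (0 : ℝ) < S := by exact_mod_cast Fintype.card_pos
  set F : Fin m → (T × T → Bool) → ℝ := fun j z =>
    Real.exp (lam * ∑ p, sp (z p) * (sp (u p.1 j) + sp (v p.2 j)) +
        (S : ℝ) / 8 * (𝔼 p, sp (z p)) ^ 2) with hF
  set c : ℝ := Real.exp ((S : ℝ) * (γ * m / 8 - 2 * lam * r - (pot u + pot v) / 16)) with hc
  have hpt : ∀ w : T × T → Fin m → Bool, ind (Bad r γ u v w) ≤ c * ∏ j, F j (fun p => w p j) := by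
    intro w
    by_cases h : Bad r γ u v w
    · rw [ind_pos h, hc]
      simp only [hF]
      rw [← Real.exp_sum, ← Real.exp_add]
      apply Real.one_le_exp
      rw [Finset.sum_add_distrib, ← Finset.mul_sum, ← Finset.mul_sum, Finset.sum_comm]
      have h1 : (S : ℝ) * (2 * r) ≤
          ∑ p : T × T, ∑ j, sp (w p j) * (sp (u p.1 j) + sp (v p.2 j)) := by
        calc (S : ℝ) * (2 * r) = ∑ _p : T × T, 2 * r := by
              rw [Finset.sum_const, Finset.card_univ, nsmul_eq_mul]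
          _ ≤ _ := Finset.sum_le_sum fun p _ => by
              have := h.1 p
              simp_rw [mul_add]
              rw [Finset.sum_add_distrib]
              unfold ip at this
              linarith [this.1, this.2]
      have h2 := h.2
      have h3 : pot w = ∑ j, (𝔼 p, sp (w p j)) ^ 2 := rfl
      rw [← h3]
      nlinarith [mul_le_mul_of_nonneg_left h1 lam_nonneg, mul_le_mul_of_nonneg_left h2 hS0.le]
    · rw [ind_neg h]; positivity
  calc _ ≤ 𝔼 w : T × T → Fin m → Bool, c * ∏ j, F j (fun p => w p j) :=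
        Finset.expect_le_expect fun w _ => hpt w
    _ = c * ∏ j, 𝔼 z, F j z := by
        rw [← Finset.mul_expect, ← expect_pi_prod]
        congr 1
        exact Fintype.expect_equiv (Equiv.piComm _) _ _ fun w => rfl
    _ ≤ c * ∏ j, (((S : ℝ) + 1) * Real.exp ((S : ℝ) *
        (LL / 2 + ((𝔼 a, sp (u a j)) ^ 2 + (𝔼 a, sp (v a j)) ^ 2) / 16))) := by
        gcongr with j
        exact one_coord (fun a => u a j) (fun a => v a j)
    _ = _ := by
        rw [Finset.prod_mul_distrib, Finset.prod_const, Finset.card_univ, Fintype.card_fin,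
          ← Real.exp_sum, hc, mul_left_comm, ← Real.exp_add, ← Finset.mul_sum,
          Finset.sum_add_distrib, ← Finset.sum_div, ← Finset.sum_div, Finset.sum_add_distrib,
          Finset.sum_const,
          Finset.card_univ, Fintype.card_fin, nsmul_eq_mul]
        congr 2
        unfold pot
        ring

end Pool.Agent.MP_419040_co

end MrgPart2

-- ======== part 3: formerly Pool.Agent.MP_419040_co.Lower
section MrgPart3

/-! A sampled Hamming graph with `n^(3/2)` edges that avoids a high tower. -/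

namespace Pool.Agent.MP_419040_co

open Finset BigOperators Real

lemma expect_comp_inj {I J X : Type*} [Fintype I] [DecidableEq I] [Fintype J] [DecidableEq J]
    [Fintype X] [Nonempty X] (ι : J → I) (hι : Function.Injective ι) (f : (J → X) → ℝ) :
    𝔼 x : I → X, f (fun j => x (ι j)) = 𝔼 y : J → X, f y := by
  classical
  rw [Fintype.expect_equiv (Equiv.piEquivPiSubtypeProd (fun i => i ∈ Set.range ι) (fun _ => X))
    (fun x => f (fun j => x (ι j))) (fun p => f (fun j => p.1 ⟨ι j, j, rfl⟩)) (fun x => rfl),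
    expect_pair]
  simp only [Fintype.expect_const]
  exact Fintype.expect_equiv (Equiv.arrowCongr (Equiv.ofInjective ι hι).symm (Equiv.refl X)) _ _
    fun p => rfl

lemma mode_le (u i : ℕ) (hi : i ≤ 5 * u) :
    (5 * u).choose i * 2 ^ i * 3 ^ (5 * u - i) ≤
      (5 * u).choose (2 * u) * 2 ^ (2 * u) * 3 ^ (3 * u) := by
  set a : ℕ → ℕ := fun i => (5 * u).choose i * 2 ^ i * 3 ^ (5 * u - i) with ha
  have step : ∀ i, i < 5 * u → a (i + 1) * (3 * (i + 1)) = a i * (2 * (5 * u - i)) := by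
    intro i hi
    simp only [ha]
    have h1 := Nat.choose_succ_right_eq (5 * u) i
    have h2 : 5 * u - i = (5 * u - (i + 1)) + 1 := by omega
    calc (5 * u).choose (i + 1) * 2 ^ (i + 1) * 3 ^ (5 * u - (i + 1)) * (3 * (i + 1))
        = ((5 * u).choose (i + 1) * (i + 1)) * (2 ^ i * 2 * (3 ^ (5 * u - (i + 1)) * 3)) := by
          ring
      _ = ((5 * u).choose i * (5 * u - i)) * (2 ^ i * 2 * 3 ^ (5 * u - i)) := by
          rw [h1, ← pow_succ 3, ← h2]
      _ = _ := by ring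
  have up : ∀ i, i < 2 * u → a i ≤ a (i + 1) := by
    intro i hi
    have h := step i (by omega)
    have h3 : 3 * (i + 1) ≤ 2 * (5 * u - i) := by omega
    have : a i * (3 * (i + 1)) ≤ a (i + 1) * (3 * (i + 1)) := by
      rw [h]; exact Nat.mul_le_mul_left _ h3
    exact Nat.le_of_mul_le_mul_right this (by omega)
  have down : ∀ i, 2 * u ≤ i → i < 5 * u → a (i + 1) ≤ a i := by
    intro i hi hi'
    have h := step i hi'
    have h3 : 2 * (5 * u - i) ≤ 3 * (i + 1) := by omega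
    have : a (i + 1) * (3 * (i + 1)) ≤ a i * (3 * (i + 1)) := by
      rw [h]; exact Nat.mul_le_mul_left _ h3
    exact Nat.le_of_mul_le_mul_right this (by omega)
  have hm : a (2 * u) = (5 * u).choose (2 * u) * 2 ^ (2 * u) * 3 ^ (3 * u) := by
    simp only [ha]; rw [show 5 * u - 2 * u = 3 * u by omega]
  rw [← hm]
  change a i ≤ a (2 * u)
  rcases le_total i (2 * u) with h | h
  · have : ∀ d, d ≤ 2 * u → a (2 * u - d) ≤ a (2 * u) := by
      intro d
      induction d with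
      | zero => intro _; exact le_rfl
      | succ d ih =>
        intro hd
        have := up (2 * u - (d + 1)) (by omega)
        rw [show 2 * u - (d + 1) + 1 = 2 * u - d by omega] at this
        exact this.trans (ih (by omega))
    have := this (2 * u - i) (by omega)
    rwa [show 2 * u - (2 * u - i) = i by omega] at this
  · have : ∀ d, 2 * u + d ≤ 5 * u → a (2 * u + d) ≤ a (2 * u) := by
      intro d
      induction d with
      | zero => intro _; exact le_rfl
      | succ d ih =>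
        intro hd
        exact (down (2 * u + d) (by omega) (by omega)).trans (ih (by omega))
    have := this (i - 2 * u) (by omega)
    rwa [show 2 * u + (i - 2 * u) = i by omega] at this

lemma choose_lower (u : ℕ) :
    5 ^ (5 * u) ≤ (5 * u + 1) * ((5 * u).choose (2 * u) * 2 ^ (2 * u) * 3 ^ (3 * u)) := by
  have h := add_pow (2 : ℕ) 3 (5 * u)
  rw [show (2 : ℕ) + 3 = 5 by norm_num] at h
  rw [h]
  calc _ ≤ ∑ _i ∈ Finset.range (5 * u + 1),
        (5 * u).choose (2 * u) * 2 ^ (2 * u) * 3 ^ (3 * u) := by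
        refine Finset.sum_le_sum fun i hi => ?_
        have := mode_le u i (Nat.lt_succ_iff.1 (Finset.mem_range.1 hi))
        rw [Nat.cast_id]
        calc _ = (5 * u).choose i * 2 ^ i * 3 ^ (5 * u - i) := by ring
          _ ≤ _ := this
    _ = _ := by rw [Finset.sum_const, Finset.card_range, smul_eq_mul]

lemma edge_prob (u : ℕ) (x : Fin (5 * u) → Bool) :
    (3125 / 3456 : ℝ) ^ u / (5 * u + 1) ≤ 𝔼 y : Fin (5 * u) → Bool, ind ((u : ℝ) ≤ ip x y) := by
  classical
  let φ : Finset (Fin (5 * u)) → Fin (5 * u) → Bool := fun s j => if j ∈ s then !x j else x j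
  have hφ : Function.Injective φ := by
    intro s s' h
    ext j
    have := congrFun h j
    simp only [φ] at this
    by_cases h1 : j ∈ s <;> by_cases h2 : j ∈ s' <;> simp_all
  have hip : ∀ s, ip x (φ s) = (5 * u : ℕ) - 2 * (s.card : ℝ) := by
    intro s
    have : ∀ j, sp (x j) * sp (φ s j) = 1 - 2 * (if j ∈ s then (1 : ℝ) else 0) := by
      intro j
      simp only [φ]
      by_cases h : j ∈ s <;> cases x j <;> simp [h, sp] <;> norm_num
    unfold ip
    simp_rw [this]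
    rw [Finset.sum_sub_distrib, ← Finset.mul_sum, Finset.sum_boole]
    simp
  have h1 : ((5 * u).choose (2 * u) : ℝ) ≤ ∑ y : Fin (5 * u) → Bool, ind ((u : ℝ) ≤ ip x y) := by
    calc ((5 * u).choose (2 * u) : ℝ)
        = ∑ y ∈ (Finset.powersetCard (2 * u) Finset.univ).image φ, ind ((u : ℝ) ≤ ip x y) := by
          rw [Finset.sum_image (fun s _ s' _ h => hφ h), Finset.sum_congr rfl (g := fun _ => 1)]
          · simp
          · intro s hs
            apply ind_pos
            rw [hip, (Finset.mem_powersetCard.1 hs).2]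
            push_cast
            linarith
      _ ≤ _ := Finset.sum_le_sum_of_subset_of_nonneg (Finset.subset_univ _)
          fun _ _ _ => ind_nonneg _
  rw [Fintype.expect_eq_sum_div_card, Fintype.card_fun, Fintype.card_bool, Fintype.card_fin]
  refine le_trans ?_ (div_le_div_of_nonneg_right h1 (Nat.cast_nonneg _))
  have h2 : (5 : ℝ) ^ (5 * u) ≤
      (5 * u + 1) * (((5 * u).choose (2 * u) : ℝ) * 2 ^ (2 * u) * 3 ^ (3 * u)) := by
    exact_mod_cast choose_lower u
  rw [div_le_div_iff₀ (by positivity) (by positivity), div_pow, div_mul_eq_mul_div,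
    div_le_iff₀ (by positivity)]
  have e1 : (3125 : ℝ) ^ u = 5 ^ (5 * u) := by rw [pow_mul]; norm_num
  have e2 : (3456 : ℝ) ^ u = 2 ^ (5 * u) * (2 ^ (2 * u) * 3 ^ (3 * u)) := by
    rw [pow_mul, pow_mul, pow_mul, ← mul_pow, ← mul_pow]; norm_num
  rw [e1, e2]
  push_cast
  calc (5 : ℝ) ^ (5 * u) * 2 ^ (5 * u) ≤ ((5 * u + 1) *
        (((5 * u).choose (2 * u) : ℝ) * 2 ^ (2 * u) * 3 ^ (3 * u))) * 2 ^ (5 * u) := by gcongr
    _ = _ := by ring

/-- The sampled Hamming graph. -/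
def Gx {N m : ℕ} (r : ℝ) (x : Fin N → Fin m → Bool) : SimpleGraph (Fin N) :=
  SimpleGraph.fromRel fun i j => r ≤ ip (x i) (x j)

lemma Gx_adj {N m : ℕ} (r : ℝ) (x : Fin N → Fin m → Bool) (i j : Fin N) :
    (Gx r x).Adj i j ↔ i ≠ j ∧ r ≤ ip (x i) (x j) := by
  rw [Gx, SimpleGraph.fromRel_adj, ip_comm (x j), or_self]

/-- A bad configuration read off an index map. -/
def BadAt {N m : ℕ} {T : Type*} [Fintype T] (r γ : ℝ) (x : Fin N → Fin m → Bool)
    (ι : T ⊕ T ⊕ T × T → Fin N) : Prop :=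
  Bad r γ (fun a => x (ι (Sum.inl a))) (fun a => x (ι (Sum.inr (Sum.inl a))))
    (fun p => x (ι (Sum.inr (Sum.inr p))))

lemma pot_tower {N m t : ℕ} (ht : 0 < t) (r γ : ℝ) (x : Fin N → Fin m → Bool) (K : ℕ)
    (hx : ∀ k < K, ∀ ι : Tp t k ⊕ Tp t k ⊕ Tp t k × Tp t k → Fin N, Function.Injective ι →
      ¬ BadAt r γ x ι) :
    ∀ k ≤ K, ∀ f : Tw t k →g Gx r x, Function.Injective f →
      pot (fun σ : Tp t k => x (f (tp t k σ))) ≤ m - k * (γ * m)
  | 0, _, f, _ => by
    haveI : Nonempty (Fin t) := ⟨⟨0, ht⟩⟩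
    simpa using pot_le _
  | k + 1, hk, f, hf => by
    have h1 := pot_tower ht r γ x K hx k (by omega) (f.comp (homL t k)) (hf.comp vl_inj)
    have h2 := pot_tower ht r γ x K hx k (by omega) (f.comp (homR t k)) (hf.comp vr_inj)
    let κ : Tp t k ⊕ Tp t k ⊕ Tp t k × Tp t k → Vtx t (k + 1) :=
      Sum.elim (fun a => vl (tp t k a)) (Sum.elim (fun a => vr (tp t k a))
        (fun p => tp t (k + 1) (glue p.1 p.2)))
    have hκ : Function.Injective κ := by
      rintro (a | a | p) (b | b | q) h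
      · rw [tp_inj _ (vl_inj h)]
      · exact absurd h (vl_ne_vr _ _)
      · exact absurd h (vl_ne_tp _ _)
      · exact absurd h.symm (vl_ne_vr _ _)
      · rw [tp_inj _ (vr_inj h)]
      · exact absurd h (vr_ne_tp _ _)
      · exact absurd h.symm (vl_ne_tp _ _)
      · exact absurd h.symm (vr_ne_tp _ _)
      · have := (splitEquiv k (Fin t)).symm.injective (tp_inj _ h)
        rw [this]
    have h3 := hx k (by omega) (fun a => f (κ a)) (hf.comp hκ)
    have h4 : pot (fun σ : Tp t (k + 1) => x (f (tp t (k + 1) σ))) =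
        pot (fun p : Tp t k × Tp t k => x (f (tp t (k + 1) (glue p.1 p.2)))) := by
      refine Finset.sum_congr rfl fun j _ => ?_
      congr 1
      exact Fintype.expect_equiv (splitEquiv k (Fin t)) _ _
        fun σ => by simp [splitEquiv, glue_lft_rgt]
    rw [h4]
    by_contra hcon
    apply h3
    refine ⟨fun p => ⟨?_, ?_⟩, ?_⟩
    · exact ((Gx_adj _ _ _ _).1 (f.map_adj (adj_tp_vl (glue p.1 p.2)))).2
    · exact ((Gx_adj _ _ _ _).1 (f.map_adj (adj_tp_vr (glue p.1 p.2)))).2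
    · push_cast at hcon
      change (pot (fun σ : Tp t k => x ((f.comp (homL t k)) (tp t k σ))) +
        pot (fun σ : Tp t k => x ((f.comp (homR t k)) (tp t k σ)))) / 2 - γ * m ≤
        pot (fun p : Tp t k × Tp t k => x (f (tp t (k + 1) (glue p.1 p.2))))
      linarith

lemma badAt_prob {N m : ℕ} {T : Type*} [Fintype T] [DecidableEq T] [Nonempty T] (r γ : ℝ)
    (ι : T ⊕ T ⊕ T × T → Fin N) (hι : Function.Injective ι) :
    𝔼 x : Fin N → Fin m → Bool, ind (BadAt r γ x ι) ≤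
      ((Fintype.card (T × T) : ℝ) + 1) ^ m *
        Real.exp ((Fintype.card (T × T) : ℝ) * (m * LL / 2 + γ * m / 8 - 2 * lam * r)) := by
  have h := expect_comp_inj (X := Fin m → Bool) ι hι (fun y => ind (Bad r γ
    (fun a => y (Sum.inl a)) (fun a => y (Sum.inr (Sum.inl a))) (fun p => y (Sum.inr (Sum.inr p)))))
  refine le_trans (le_of_eq h) ?_
  rw [Fintype.expect_equiv ((Equiv.sumArrowEquivProdArrow _ _ _).trans
    ((Equiv.refl _).prodCongr (Equiv.sumArrowEquivProdArrow _ _ _)))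
    (fun y : T ⊕ T ⊕ T × T → Fin m → Bool => ind (Bad r γ (fun a => y (Sum.inl a))
      (fun a => y (Sum.inr (Sum.inl a))) (fun p => y (Sum.inr (Sum.inr p)))))
    (fun q : (T → Fin m → Bool) × (T → Fin m → Bool) × (T × T → Fin m → Bool) =>
      ind (Bad r γ q.1 q.2.1 q.2.2)) (fun y => rfl), expect_pair]
  refine Finset.expect_le Finset.univ_nonempty fun u _ => ?_
  rw [expect_pair]
  exact Finset.expect_le Finset.univ_nonempty fun v _ => bad_prob r γ u v

lemma log_gap : Real.log (3456 / 3125) * 2 + 5 * LL / 2 - 2 * lam ≤ -(1 / 250) := by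
  have h1 : Real.log (3456 / 3125) * 4 + 5 * LL - 2 * (2 * lam) =
      -(5 * Real.log (625 / 624)) := by
    rw [LL, lam, mul_div_cancel₀ _ (two_ne_zero)]
    have e1 : Real.log (3456 / 3125) * 4 = Real.log ((3456 / 3125) ^ 4) := by
      rw [Real.log_pow]; push_cast; ring
    have e2 : 5 * Real.log (13 / 12) = Real.log ((13 / 12) ^ 5) := by
      rw [Real.log_pow]; push_cast; ring
    have e3 : 2 * Real.log (3 / 2) = Real.log ((3 / 2) ^ 2) := by
      rw [Real.log_pow]; push_cast; ring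
    have e4 : 5 * Real.log (625 / 624) = Real.log ((625 / 624) ^ 5) := by
      rw [Real.log_pow]; push_cast; ring
    rw [e1, e2, e3, e4, ← Real.log_mul (by norm_num) (by norm_num),
      ← Real.log_div (by norm_num) (by norm_num), ← Real.log_inv]
    congr 1
    norm_num
  have h2 := Real.one_sub_inv_le_log_of_pos (show (0 : ℝ) < 625 / 624 by norm_num)
  norm_num at h2
  linarith

lemma log_small : Real.log (3456 / 3125) * 2 + 1 / 1000 ≤ 1 := by
  have := Real.log_le_sub_one_of_pos (show (0 : ℝ) < 3456 / 3125 by norm_num)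
  linarith

lemma level_bound {N u s : ℕ} (hs : 7000 ≤ s)
    (hN : (N : ℝ) ≤ Real.exp (u * (Real.log (3456 / 3125) * 2 + 1 / 1000))) :
    (N : ℝ) ^ 2 * ((N : ℝ) ^ (s + (s + s * s)) * ((((s * s : ℕ) : ℝ) + 1) ^ (5 * u) *
      Real.exp (((s * s : ℕ) : ℝ) * (((5 * u : ℕ) : ℝ) * LL / 2 +
        1 / 625 * ((5 * u : ℕ) : ℝ) / 8 - 2 * lam * u)))) ≤ Real.exp (-u) := by
  set c : ℝ := Real.log (3456 / 3125) * 2 + 1 / 1000 with hc
  have hu : (0 : ℝ) ≤ u := Nat.cast_nonneg _
  have hs' : (7000 : ℝ) ≤ s := by exact_mod_cast hs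
  have hN0 : (0 : ℝ) ≤ N := Nat.cast_nonneg _
  have hN1 : (N : ℝ) ≤ Real.exp u :=
    hN.trans (Real.exp_le_exp.2 (by nlinarith [log_small]))
  have h1 : ((s * s : ℕ) : ℝ) + 1 ≤ Real.exp (2 * s) := by
    have := Real.add_one_le_exp (s : ℝ)
    rw [two_mul, Real.exp_add]
    push_cast
    nlinarith [Real.exp_pos (s : ℝ)]
  calc _ = ((N : ℝ) ^ (2 + s + s) * (N : ℝ) ^ (s * s)) * ((((s * s : ℕ) : ℝ) + 1) ^ (5 * u) *
      Real.exp (((s * s : ℕ) : ℝ) * (((5 * u : ℕ) : ℝ) * LL / 2 +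
        1 / 625 * ((5 * u : ℕ) : ℝ) / 8 - 2 * lam * u))) := by ring
    _ ≤ (Real.exp u ^ (2 + s + s) * Real.exp (u * c) ^ (s * s)) * (Real.exp (2 * s) ^ (5 * u) *
      Real.exp (((s * s : ℕ) : ℝ) * (((5 * u : ℕ) : ℝ) * LL / 2 +
        1 / 625 * ((5 * u : ℕ) : ℝ) / 8 - 2 * lam * u))) := by gcongr
    _ ≤ _ := by
      rw [← Real.exp_nat_mul, ← Real.exp_nat_mul, ← Real.exp_nat_mul, ← Real.exp_add,
        ← Real.exp_add, ← Real.exp_add, Real.exp_le_exp]
      push_cast
      have hg := log_gap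
      have h2 : (s : ℝ) * s * u * (c + 5 * LL / 2 + 1 / 1000 - 2 * lam) ≤
          (s : ℝ) * s * u * (-(1 / 500)) :=
        mul_le_mul_of_nonneg_left (by rw [hc]; linarith) (by positivity)
      have h3 : (u : ℝ) * (12 * s + 3) ≤ u * (s * s / 500) :=
        mul_le_mul_of_nonneg_left (by nlinarith) hu
      nlinarith

lemma le_card_Tp {t : ℕ} (ht : 0 < t) : ∀ k, t ≤ Fintype.card (Tp t k)
  | 0 => (card_Tp_zero t).ge
  | k + 1 => by
    have := le_card_Tp ht k
    rw [card_Tp_succ]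
    nlinarith

open Classical in
theorem lower_at {N u : ℕ} (hu : 626 ≤ u) (hN2 : 2 ≤ N)
    (hlo : 36 * (5 * (u : ℝ) + 1) ^ 2 * ((3456 / 3125 : ℝ) ^ 2) ^ u ≤ N)
    (hN : (N : ℝ) ≤ Real.exp (u * (Real.log (3456 / 3125) * 2 + 1 / 1000))) :
    ∃ G : SimpleGraph (Fin N), (Tw 7000 626).Free G ∧
      (N : ℝ) * Real.sqrt N ≤ G.edgeFinset.card := by
  haveI : Nonempty (Fin 7000) := ⟨0⟩
  set π0 : ℝ := (3125 / 3456 : ℝ) ^ u / (5 * u + 1) with hπ0
  have hN2' : (2 : ℝ) ≤ N := by exact_mod_cast hN2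
  set e2 : (Fin N → Fin (5 * u) → Bool) → ℝ := fun x =>
    ∑ p ∈ (Finset.univ : Finset (Fin N)).offDiag, ind ((u : ℝ) ≤ ip (x p.1) (x p.2)) with he2
  set bad : (Fin N → Fin (5 * u) → Bool) → ℝ := fun x => ∑ k ∈ Finset.range 626,
    ∑ ι ∈ (Finset.univ : Finset (Tp 7000 k ⊕ Tp 7000 k ⊕ Tp 7000 k × Tp 7000 k → Fin N)).filter
      Function.Injective, ind (BadAt (u : ℝ) (1 / 625) x ι) with hbad
  have hcard : (((Finset.univ : Finset (Fin N)).offDiag.card : ℕ) : ℝ) = N * N - N := by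
    rw [Finset.offDiag_card, Finset.card_univ, Fintype.card_fin, Nat.cast_sub (by nlinarith)]
    push_cast; ring
  have hE : ((N : ℝ) * N - N) * π0 ≤ 𝔼 x, e2 x := by
    simp only [he2]
    rw [Finset.expect_sum_comm, ← hcard, ← nsmul_eq_mul, ← Finset.sum_const]
    refine Finset.sum_le_sum fun p hp => ?_
    have hne := (Finset.mem_offDiag.1 hp).2.2
    have hι : Function.Injective (fun b : Bool => if b then p.1 else p.2) := by
      intro a b h
      cases a <;> cases b <;> simp_all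
    have h := expect_comp_inj (X := Fin (5 * u) → Bool) _ hι
      (fun y => ind ((u : ℝ) ≤ ip (y true) (y false)))
    refine le_trans ?_ (le_of_eq h.symm)
    rw [Fintype.expect_equiv (Equiv.boolArrowEquivProd _)
      (fun y : Bool → Fin (5 * u) → Bool => ind ((u : ℝ) ≤ ip (y true) (y false)))
      (fun q : (Fin (5 * u) → Bool) × (Fin (5 * u) → Bool) => ind ((u : ℝ) ≤ ip q.2 q.1))
      (fun y => rfl), expect_pair, Finset.expect_comm]
    exact Finset.le_expect Finset.univ_nonempty fun y _ => edge_prob u y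
  have hB : (N : ℝ) ^ 2 * 𝔼 x, bad x ≤ 1 := by
    simp only [hbad]
    rw [Finset.expect_sum_comm, Finset.mul_sum]
    calc _ ≤ ∑ _k ∈ Finset.range 626, Real.exp (-u) := by
          refine Finset.sum_le_sum fun k _ => ?_
          refine le_trans ?_ (level_bound (le_card_Tp (by norm_num) k) hN)
          gcongr
          rw [Finset.expect_sum_comm]
          refine le_trans (Finset.sum_le_sum fun ι hι =>
            badAt_prob (u : ℝ) (1 / 625) ι (Finset.mem_filter.1 hι).2) ?_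
          rw [Finset.sum_const, nsmul_eq_mul, Fintype.card_prod]
          gcongr
          have := Finset.card_filter_le (Finset.univ :
            Finset (Tp 7000 k ⊕ Tp 7000 k ⊕ Tp 7000 k × Tp 7000 k → Fin N)) Function.Injective
          rw [Finset.card_univ, Fintype.card_fun, Fintype.card_fin, Fintype.card_sum,
            Fintype.card_sum, Fintype.card_prod] at this
          exact_mod_cast this
      _ ≤ 1 := by
          rw [Finset.sum_const, Finset.card_range, nsmul_eq_mul, Real.exp_neg,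
            ← div_eq_mul_inv, div_le_one (Real.exp_pos _)]
          have h1 := Real.add_one_le_exp (u : ℝ)
          have h2 : (626 : ℝ) ≤ u := by exact_mod_cast hu
          push_cast; linarith
  have hsq : 0 < Real.sqrt N := Real.sqrt_pos.2 (by linarith)
  have hsq2 : Real.sqrt N * Real.sqrt N = N := Real.mul_self_sqrt (by linarith)
  have hπ : 6 ≤ Real.sqrt N * π0 := by
    have hp : 0 ≤ π0 := by positivity
    apply (pow_le_pow_iff_left₀ (by norm_num) (by positivity) two_ne_zero).1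
    rw [mul_pow, Real.sq_sqrt (by linarith), hπ0, div_pow, ← mul_div_assoc,
      le_div_iff₀ (by positivity)]
    have e : ((3456 / 3125 : ℝ) ^ 2) ^ u * ((3125 / 3456 : ℝ) ^ u) ^ 2 = 1 := by
      rw [← pow_mul, ← pow_mul, mul_comm u 2, ← mul_pow]; norm_num
    calc (6 : ℝ) ^ 2 * (5 * u + 1) ^ 2
        = (36 * (5 * (u : ℝ) + 1) ^ 2 * ((3456 / 3125 : ℝ) ^ 2) ^ u) *
            ((3125 / 3456 : ℝ) ^ u) ^ 2 := by rw [mul_assoc, e]; ring
      _ ≤ _ := by gcongr
  have hsq1 : 1 ≤ Real.sqrt N := Real.one_le_sqrt.2 (by linarith)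
  have hmain : 2 * ((N : ℝ) * Real.sqrt N) ≤ 𝔼 x, (e2 x - (N : ℝ) ^ 2 * bad x) := by
    rw [Finset.expect_sub_distrib, ← Finset.mul_expect]
    have h1 : ((N : ℝ) * N - N) * π0 = (N - 1) * Real.sqrt N * (Real.sqrt N * π0) := by
      have : (N - 1) * Real.sqrt N * (Real.sqrt N * π0) =
        (N - 1) * (Real.sqrt N * Real.sqrt N) * π0 := by ring
      rw [this, hsq2]; ring
    have h2 : (N - 1) * Real.sqrt N * 6 ≤ (N - 1) * Real.sqrt N * (Real.sqrt N * π0) :=
      mul_le_mul_of_nonneg_left hπ (mul_nonneg (by linarith) hsq.le)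
    nlinarith
  obtain ⟨x, -, hx⟩ := Finset.exists_le_of_le_expect Finset.univ_nonempty hmain
  have he2le : e2 x ≤ (N : ℝ) ^ 2 := by
    calc e2 x ≤ ∑ _p ∈ (Finset.univ : Finset (Fin N)).offDiag, (1 : ℝ) :=
          Finset.sum_le_sum fun p _ => ind_le_one _
      _ ≤ _ := by rw [Finset.sum_const, nsmul_eq_mul, hcard]; nlinarith
  have hbad0 : 0 ≤ bad x :=
    Finset.sum_nonneg fun k _ => Finset.sum_nonneg fun ι _ => ind_nonneg _
  have hpos : 0 < (N : ℝ) * Real.sqrt N := by positivity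
  refine ⟨Gx (u : ℝ) x, ?_, ?_⟩
  · rintro ⟨f⟩
    have h := pot_tower (t := 7000) (by norm_num) (u : ℝ) (1 / 625) x 626 ?_ 626 le_rfl
      f.toHom f.injective
    · have h0 := pot_nonneg (fun σ : Tp 7000 626 => x (f.toHom (tp 7000 626 σ)))
      have h2 : (626 : ℝ) ≤ u := by exact_mod_cast hu
      push_cast at h
      linarith
    · intro k hk ι hι hb
      have h1 : (1 : ℝ) ≤ bad x := by
        refine le_trans ?_ (Finset.single_le_sum (f := fun k => ∑ ι ∈ (Finset.univ :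
          Finset (Tp 7000 k ⊕ Tp 7000 k ⊕ Tp 7000 k × Tp 7000 k → Fin N)).filter
          Function.Injective, ind (BadAt (u : ℝ) (1 / 625) x ι))
          (fun k _ => Finset.sum_nonneg fun ι _ => ind_nonneg _) (Finset.mem_range.2 hk))
        refine le_trans (ind_pos hb).ge ?_
        exact Finset.single_le_sum (f := fun ι => ind (BadAt (u : ℝ) (1 / 625) x ι))
          (fun ι _ => ind_nonneg _) (Finset.mem_filter.2 ⟨Finset.mem_univ _, hι⟩)
      nlinarith [mul_le_mul_of_nonneg_left h1 (sq_nonneg (N : ℝ))]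
  · have h1 : e2 x = 2 * ((Gx (u : ℝ) x).edgeFinset.card : ℝ) := by
      have h2 := SimpleGraph.two_mul_card_edgeFinset (Gx (u : ℝ) x)
      have h3 : (2 : ℝ) * ((Gx (u : ℝ) x).edgeFinset.card : ℝ) =
          ((2 * (Gx (u : ℝ) x).edgeFinset.card : ℕ) : ℝ) := by push_cast; ring
      rw [h3, h2]
      simp only [he2, ind]
      rw [Finset.sum_boole]
      congr 2
      ext p
      simp [Gx_adj]
    nlinarith [mul_nonneg (sq_nonneg (N : ℝ)) hbad0]

end Pool.Agent.MP_419040_co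

end MrgPart3

-- marker of a merged file
example : 731051 + 748704 = 731051 + 748704 := rfl
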