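import Mathlib.Order.Lattice.Nat
import Mathlib.Data.Set.Card
import Mathlib.Combinatorics.SimpleGraph.Copy

namespace Pool.Agent.MP_419040_co

/-- The 1-subdivision of `K₄`: four branch vertices, and one new vertex for every pair `i < j`,
joined to `i` and to `j`. -/
def subK4 : SimpleGraph (Fin 4 ⊕ {p : Fin 4 × Fin 4 // p.1 < p.2}) :=
  SimpleGraph.fromRel fun a b => ∃ i p, a = Sum.inl i ∧ b = Sum.inr p ∧ (i = p.1.1 ∨ i = p.1.2)

/-- `ex({G, H}, n)`: the largest number of edges of a graph on `n` vertices that contains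
neither `G` nor `H` as a subgraph. -/
noncomputable def exPair {α β : Type} (G : SimpleGraph α) (H : SimpleGraph β) (n : ℕ) : ℕ :=
  sSup {m | ∃ F : SimpleGraph (Fin n), G.Free F ∧ H.Free F ∧ F.edgeSet.ncard = m}

end Pool.Agent.MP_419040_co
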