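import Pool.Agent.MP_419040_co.Lower

/-! A graph without four-cycles and with large minimum degree contains the tower. -/

namespace Pool.Agent.MP_419040_co

open Finset BigOperators

variable {V : Type*}

/-- Two distinct vertices have at most one common neighbour. -/
def Lin (G : SimpleGraph V) : Prop :=
  ∀ x y z w, x ≠ y → G.Adj z x → G.Adj z y → G.Adj w x → G.Adj w y → z = w

/-- `Tr G k a z u`: the leaves `a` extend to a non-backtracking map of the binary tree with root
`z`, whose two entries avoid `u`. -/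
def Tr (G : SimpleGraph V) : ∀ k, (Lf k → V) → V → V → Prop
  | 0, a, z, _ => a () = z
  | k + 1, a, z, u => ∃ x y, x ≠ y ∧ x ≠ u ∧ y ≠ u ∧ G.Adj z x ∧ G.Adj z y ∧
      Tr G k (lft a) x z ∧ Tr G k (rgt a) y z

variable {G : SimpleGraph V}

lemma Tr_uniq (hG : Lin G) : ∀ k (a : Lf k → V) (z u z' u' : V),
    Tr G k a z u → Tr G k a z' u' → z = z'
  | 0, _, _, _, _, _, h, h' => h.symm.trans h'
  | k + 1, a, z, u, z', u', h, h' => by
    obtain ⟨x, y, hxy, -, -, hx, hy, hl, hr⟩ := h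
    obtain ⟨x', y', -, -, -, hx', hy', hl', hr'⟩ := h'
    have e1 := Tr_uniq hG k _ _ _ _ _ hl hl'
    have e2 := Tr_uniq hG k _ _ _ _ _ hr hr'
    subst e1 e2
    exact hG x y z z' hxy hx hy hx' hy'

noncomputable def val [Nonempty V] (G : SimpleGraph V) (k : ℕ) (a : Lf k → V) : V :=
  Classical.epsilon fun z => ∃ u, Tr G k a z u

lemma val_eq [Nonempty V] (hG : Lin G) {k : ℕ} {a : Lf k → V} {z u : V} (h : Tr G k a z u) :
    val G k a = z := by
  obtain ⟨u', h'⟩ := Classical.epsilon_spec (p := fun z => ∃ u, Tr G k a z u) ⟨z, u, h⟩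
  exact Tr_uniq hG k a _ _ _ _ h' h

lemma back_adj [Nonempty V] (hG : Lin G) : ∀ k (a : Lf k → V) (i : Lf k) (u : V),
    ∃ c : V, ∀ a' : Lf k → V, (∀ i', i' ≠ i → a' i' = a i') →
      ∀ z, G.Adj u z → Tr G k a' z u → G.Adj c (a' i)
  | 0, a, i, u => ⟨u, fun a' _ z hz h => by
      have : a' i = z := h
      rw [this]; exact hz⟩
  | k + 1, a, i, u => by
    rcases i with i | i
    · obtain ⟨c, hc⟩ := back_adj hG k (lft a) i
        (Classical.epsilon fun z => G.Adj z u ∧ G.Adj z (val G k (rgt a)))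
      refine ⟨c, fun a' ha' z hz h => ?_⟩
      obtain ⟨x, y, -, -, hyu, hx, hy, hl, hr⟩ := h
      have e : rgt a' = rgt a := funext fun j => ha' (Sum.inr j) Sum.inr_ne_inl
      rw [e] at hr
      have ey := val_eq hG hr
      have hs := Classical.epsilon_spec (p := fun z => G.Adj z u ∧ G.Adj z (val G k (rgt a)))
        ⟨z, hz.symm, ey ▸ hy⟩
      have ez := hG u y _ z hyu.symm hs.1 (ey ▸ hs.2) hz.symm hy
      rw [ez] at hc
      exact hc (lft a') (fun i' hi' => ha' (Sum.inl i') fun h => hi' (Sum.inl_injective h))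
        x hx hl
    · obtain ⟨c, hc⟩ := back_adj hG k (rgt a) i
        (Classical.epsilon fun z => G.Adj z u ∧ G.Adj z (val G k (lft a)))
      refine ⟨c, fun a' ha' z hz h => ?_⟩
      obtain ⟨x, y, -, hxu, -, hx, hy, hl, hr⟩ := h
      have e : lft a' = lft a := funext fun j => ha' (Sum.inl j) Sum.inl_ne_inr
      rw [e] at hl
      have ex := val_eq hG hl
      have hs := Classical.epsilon_spec (p := fun z => G.Adj z u ∧ G.Adj z (val G k (lft a)))
        ⟨z, hz.symm, ex ▸ hx⟩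
      have ez := hG u x _ z hxu.symm hs.1 (ex ▸ hs.2) hz.symm hx
      rw [ez] at hc
      exact hc (rgt a') (fun i' hi' => ha' (Sum.inr i') fun h => hi' (Sum.inr_injective h))
        y hy hr

lemma back_set [Fintype V] [Nonempty V] [DecidableRel G.Adj] (hG : Lin G) (Δ : ℝ) (h1 : 1 ≤ Δ)
    (hΔ : ∀ v, (G.degree v : ℝ) ≤ Δ) : ∀ k (a : Lf k → V) (i : Lf k) (w : V),
    ∃ S : Finset V, (S.card : ℝ) ≤ Δ ∧ ∀ a' : Lf k → V, (∀ i', i' ≠ i → a' i' = a i') →
      ∀ u, Tr G k a' w u → a' i ∈ S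
  | 0, a, i, w => ⟨{w}, by simpa using h1, fun a' _ u h => by
      have : a' i = w := h
      rw [this]; exact Finset.mem_singleton_self _⟩
  | k + 1, a, i, w => by
    rcases i with i | i
    · obtain ⟨c, hc⟩ := back_adj hG k (lft a) i w
      refine ⟨G.neighborFinset c, hΔ c, fun a' ha' u h => ?_⟩
      obtain ⟨x, y, -, -, -, hx, -, hl, -⟩ := h
      rw [SimpleGraph.mem_neighborFinset]
      exact hc (lft a') (fun i' hi' => ha' (Sum.inl i') fun h => hi' (Sum.inl_injective h))
        x hx hl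
    · obtain ⟨c, hc⟩ := back_adj hG k (rgt a) i w
      refine ⟨G.neighborFinset c, hΔ c, fun a' ha' u h => ?_⟩
      obtain ⟨x, y, -, -, -, -, hy, -, hr⟩ := h
      rw [SimpleGraph.mem_neighborFinset]
      exact hc (rgt a') (fun i' hi' => ha' (Sum.inr i') fun h => hi' (Sum.inr_injective h))
        y hy hr

lemma Tr_count [Fintype V] [Nonempty V] [DecidableRel G.Adj] (hG : Lin G) (E : ℕ) (hE : 0 < E)
    (hd : ∀ v, E + 2 ≤ G.degree v) : ∀ k (z u : V),
    (((E : ℝ) ^ 2 / Fintype.card V) ^ (2 ^ k)) / (E : ℝ) ^ 2 ≤ 𝔼 a : Lf k → V, ind (Tr G k a z u)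
  | 0, z, u => by
    classical
    have hE' : (0 : ℝ) < E := by exact_mod_cast hE
    rw [Fintype.expect_equiv (zeroEquiv V) (fun a => ind (Tr G 0 a z u)) (fun x => ind (x = z))
      (fun a => rfl),
      Fintype.expect_eq_sum_div_card, Finset.sum_eq_single_of_mem z (Finset.mem_univ _)
        (fun b _ hb => ind_neg hb), ind_pos rfl]
    apply le_of_eq
    rw [pow_zero, pow_one]
    field_simp
  | k + 1, z, u => by
    classical
    have hE' : (0 : ℝ) < E := by exact_mod_cast hE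
    set q : ℝ := (((E : ℝ) ^ 2 / Fintype.card V) ^ (2 ^ k)) / (E : ℝ) ^ 2 with hq
    have hq0 : 0 ≤ q := by positivity
    set N := (G.neighborFinset z).erase u with hN
    have hNc : E + 1 ≤ N.card := by
      have := Finset.pred_card_le_card_erase (s := G.neighborFinset z) (a := u)
      have h2 := hd z
      rw [← SimpleGraph.card_neighborFinset_eq_degree] at h2
      rw [hN]
      omega
    have hpairs : (E : ℝ) ^ 2 ≤ (N.offDiag.card : ℝ) := by
      rw [Finset.offDiag_card]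
      have h3 : E ^ 2 ≤ N.card * N.card - N.card := by
        obtain ⟨m, hm⟩ := Nat.exists_eq_add_of_le hNc
        rw [hm]
        apply Nat.le_sub_of_add_le
        nlinarith
      exact_mod_cast h3
    have hpt : ∀ a b : Lf k → V, ∑ p ∈ N.offDiag, ind (Tr G k a p.1 z) * ind (Tr G k b p.2 z) ≤
        ind (Tr G (k + 1) (glue a b) z u) := by
      intro a b
      simp_rw [← ind_and]
      refine sum_ind_le _ _ _ ?_ ?_
      · rintro p - p' - ⟨h1, h2⟩ ⟨h1', h2'⟩
        exact Prod.ext (Tr_uniq hG k _ _ _ _ _ h1 h1') (Tr_uniq hG k _ _ _ _ _ h2 h2')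
      · rintro p hp ⟨h1, h2⟩
        rw [Finset.mem_offDiag, hN, Finset.mem_erase, Finset.mem_erase,
          SimpleGraph.mem_neighborFinset, SimpleGraph.mem_neighborFinset] at hp
        exact ⟨p.1, p.2, hp.2.2, hp.1.1, hp.2.1.1, hp.1.2, hp.2.1.2, h1, h2⟩
    rw [expect_split k]
    calc (((E : ℝ) ^ 2 / Fintype.card V) ^ (2 ^ (k + 1))) / (E : ℝ) ^ 2
        = (E : ℝ) ^ 2 * (q * q) := by
          rw [hq, pow_succ 2 k, pow_mul]; field_simp
      _ ≤ ∑ p ∈ N.offDiag, q * q := by
          rw [Finset.sum_const, nsmul_eq_mul]; gcongr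
      _ ≤ ∑ p ∈ N.offDiag, (𝔼 a : Lf k → V, ind (Tr G k a p.1 z)) *
            (𝔼 b : Lf k → V, ind (Tr G k b p.2 z)) := by
          refine Finset.sum_le_sum fun p _ => ?_
          exact mul_le_mul (Tr_count hG E hE hd k _ _) (Tr_count hG E hE hd k _ _) hq0
            (Finset.expect_nonneg fun a _ => ind_nonneg _)
      _ = 𝔼 a : Lf k → V, 𝔼 b : Lf k → V,
            ∑ p ∈ N.offDiag, ind (Tr G k a p.1 z) * ind (Tr G k b p.2 z) := by
          simp_rw [Finset.expect_mul_expect, Finset.expect_sum_comm]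
      _ ≤ _ := Finset.expect_le_expect fun a _ => Finset.expect_le_expect fun b _ => hpt a b

lemma degree_mul_le [Fintype V] [DecidableRel G.Adj] (hG : Lin G) (E : ℕ)
    (hd : ∀ v, E + 2 ≤ G.degree v) (v : V) : G.degree v * E ≤ Fintype.card V := by
  classical
  have h1 : ((G.neighborFinset v).sigma fun y => (G.neighborFinset y).erase v).card ≤
      (Finset.univ : Finset V).card := by
    refine Finset.card_le_card_of_injOn (fun p => p.2) (fun _ _ => Finset.mem_univ _) ?_
    rintro ⟨y, z⟩ hp ⟨y', z'⟩ hp' h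
    simp only [Finset.coe_sigma, Set.mem_sigma_iff, Finset.mem_coe, Finset.mem_erase,
      SimpleGraph.mem_neighborFinset] at hp hp'
    have h' : z = z' := h
    subst h'
    have := hG v z y y' hp.2.1.symm hp.1.symm hp.2.2 hp'.1.symm hp'.2.2
    subst this
    rfl
  rw [Finset.card_sigma, Finset.card_univ] at h1
  refine le_trans ?_ h1
  rw [← SimpleGraph.card_neighborFinset_eq_degree, ← smul_eq_mul, ← Finset.sum_const]
  refine Finset.sum_le_sum fun y _ => ?_
  have := Finset.pred_card_le_card_erase (s := G.neighborFinset y) (a := v)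
  have h2 := hd y
  rw [← SimpleGraph.card_neighborFinset_eq_degree] at h2
  omega

/-- The map from the tower defined by an array of leaves. -/
noncomputable def emb [Nonempty V] (G : SimpleGraph V) (t : ℕ) :
    ∀ k, (Lf k → Fin t → V) → Vtx t k → V
  | 0, A, v => val G 0 (sel A v)
  | k + 1, A, v => Sum.elim (emb G t k (lft A))
      (Sum.elim (emb G t k (rgt A)) (fun σ => val G (k + 1) (sel A σ))) v

lemma emb_tp [Nonempty V] (t : ℕ) : ∀ k (A : Lf k → Fin t → V) (σ : Tp t k),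
    emb G t k A (tp t k σ) = val G k (sel A σ)
  | 0, _, _ => rfl
  | _ + 1, _, _ => rfl

lemma emb_vl [Nonempty V] {t k : ℕ} (A : Lf (k + 1) → Fin t → V) (a : Vtx t k) :
    emb G t (k + 1) A (vl a) = emb G t k (lft A) a := rfl
lemma emb_vr [Nonempty V] {t k : ℕ} (A : Lf (k + 1) → Fin t → V) (a : Vtx t k) :
    emb G t (k + 1) A (vr a) = emb G t k (rgt A) a := rfl

def Good (G : SimpleGraph V) (t k : ℕ) (A : Lf k → Fin t → V) : Prop :=
  ∀ σ : Tp t k, ∃ z u, Tr G k (sel A σ) z u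

lemma Good.left {t k : ℕ} {A : Lf (k + 1) → Fin t → V} (h : Good G t (k + 1) A) :
    Good G t k (lft A) := fun σ => by
  obtain ⟨z, u, x, y, -, -, -, -, -, hl, -⟩ := h (glue σ σ)
  exact ⟨x, z, hl⟩

lemma Good.right {t k : ℕ} {A : Lf (k + 1) → Fin t → V} (h : Good G t (k + 1) A) :
    Good G t k (rgt A) := fun σ => by
  obtain ⟨z, u, x, y, -, -, -, -, -, -, hr⟩ := h (glue σ σ)
  exact ⟨y, z, hr⟩

lemma emb_adj [Nonempty V] (hG : Lin G) (t : ℕ) : ∀ k (A : Lf k → Fin t → V), Good G t k A →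
    ∀ u v, rel t k u v → G.Adj (emb G t k A u) (emb G t k A v)
  | 0, _, _, _, _, h => h.elim
  | k + 1, A, hA, u, v, h => by
    rcases h with ⟨a, b, rfl, rfl, h⟩ | ⟨a, b, rfl, rfl, h⟩ | ⟨σ, rfl, rfl⟩ | ⟨σ, rfl, rfl⟩
    · exact emb_adj hG t k _ hA.left a b h
    · exact emb_adj hG t k _ hA.right a b h
    · obtain ⟨z, u, h⟩ := hA σ
      rw [emb_tp, emb_vl, emb_tp, val_eq hG h]
      obtain ⟨x, y, -, -, -, hx, -, hl, -⟩ := h
      have : val G k (sel (lft A) (lft σ)) = x := val_eq hG hl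
      rw [this]; exact hx
    · obtain ⟨z, u, h⟩ := hA σ
      rw [emb_tp, emb_vr, emb_tp, val_eq hG h]
      obtain ⟨x, y, -, -, -, -, hy, -, hr⟩ := h
      have : val G k (sel (rgt A) (rgt σ)) = y := val_eq hG hr
      rw [this]; exact hy

lemma emb_congr [Nonempty V] (t : ℕ) : ∀ k (A A' : Lf k → Fin t → V) (v : Vtx t k),
    (∀ i j, dep t k v i j → A i j = A' i j) → emb G t k A v = emb G t k A' v
  | 0, A, A', v, h => by
    have : sel A v = sel A' v := funext fun i => h i _ rfl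
    change val G 0 (sel A v) = val G 0 (sel A' v)
    rw [this]
  | k + 1, A, A', v, h => by
    rcases vtx_cases v with ⟨a, rfl⟩ | ⟨a, rfl⟩ | ⟨σ, rfl⟩
    · exact emb_congr t k _ _ a fun i j hd => h (Sum.inl i) j ((dep_vl _ _ _).2 ⟨i, rfl, hd⟩)
    · exact emb_congr t k _ _ a fun i j hd => h (Sum.inr i) j ((dep_vr _ _ _).2 ⟨i, rfl, hd⟩)
    · have : sel A σ = sel A' σ := funext fun i => h i _ ((dep_tp _ _ _ _).2 rfl)
      rw [emb_tp, emb_tp, this]

lemma emb_set [Fintype V] [Nonempty V] [DecidableRel G.Adj] (hG : Lin G) (Δ : ℝ) (h1 : 1 ≤ Δ)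
    (hΔ : ∀ v, (G.degree v : ℝ) ≤ Δ) (t : ℕ) :
    ∀ k (A : Lf k → Fin t → V) (v : Vtx t k) (i : Lf k) (j : Fin t) (w : V), dep t k v i j →
    ∃ S : Finset V, (S.card : ℝ) ≤ Δ ∧ ∀ A' : Lf k → Fin t → V,
      (∀ i' j', (i', j') ≠ (i, j) → A' i' j' = A i' j') → Good G t k A' →
        emb G t k A' v = w → A' i j ∈ S := by
  have top : ∀ k (A : Lf k → Fin t → V) (σ : Tp t k) (i : Lf k) (j : Fin t) (w : V), σ i = j →
      ∃ S : Finset V, (S.card : ℝ) ≤ Δ ∧ ∀ A' : Lf k → Fin t → V,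
      (∀ i' j', (i', j') ≠ (i, j) → A' i' j' = A i' j') → Good G t k A' →
        emb G t k A' (tp t k σ) = w → A' i j ∈ S := by
    intro k A σ i j w hσ
    obtain ⟨S, hS, h⟩ := back_set hG Δ h1 hΔ k (sel A σ) i w
    refine ⟨S, hS, fun A' hA' hg he => ?_⟩
    obtain ⟨z, u, hz⟩ := hg σ
    rw [emb_tp, val_eq hG hz] at he
    subst he
    have := h (sel A' σ) (fun i' hi' => hA' i' _ fun h => hi' (congrArg Prod.fst h)) u hz
    rwa [sel, hσ] at this
  intro k
  induction k with
  | zero => intro A v i j w hd; exact top 0 A v i j w hd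
  | succ k ih =>
    intro A v i j w hd
    rcases vtx_cases v with ⟨a, rfl⟩ | ⟨a, rfl⟩ | ⟨σ, rfl⟩
    · obtain ⟨i0, rfl, hd0⟩ := (dep_vl _ _ _).1 hd
      obtain ⟨S, hS, h⟩ := ih (lft A) a i0 j w hd0
      refine ⟨S, hS, fun A' hA' hg he => h (lft A') (fun i' j' hne => hA' (Sum.inl i') j' ?_)
        hg.left he⟩
      intro h
      exact hne (Prod.ext (Sum.inl_injective (Prod.ext_iff.1 h).1) (Prod.ext_iff.1 h).2)
    · obtain ⟨i0, rfl, hd0⟩ := (dep_vr _ _ _).1 hd
      obtain ⟨S, hS, h⟩ := ih (rgt A) a i0 j w hd0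
      refine ⟨S, hS, fun A' hA' hg he => h (rgt A') (fun i' j' hne => hA' (Sum.inr i') j' ?_)
        hg.right he⟩
      intro h
      exact hne (Prod.ext (Sum.inr_injective (Prod.ext_iff.1 h).1) (Prod.ext_iff.1 h).2)
    · exact top (k + 1) A σ i j w ((dep_tp _ _ _ _).1 hd)

lemma coincide_le [Fintype V] [Nonempty V] [DecidableRel G.Adj] (hG : Lin G) (Δ : ℝ) (h1 : 1 ≤ Δ)
    (hΔ : ∀ v, (G.degree v : ℝ) ≤ Δ) (t k : ℕ) (u v : Vtx t k) (huv : u ≠ v) :
    𝔼 A : Lf k → Fin t → V, ind (Good G t k A ∧ emb G t k A u = emb G t k A v) ≤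
      Δ / Fintype.card V := by
  have key : ∀ u v : Vtx t k, ∀ i j, dep t k u i j → ¬ dep t k v i j →
      𝔼 A : Lf k → Fin t → V, ind (Good G t k A ∧ emb G t k A u = emb G t k A v) ≤
        Δ / Fintype.card V := by
    intro u v i j hu hv
    rw [← Fintype.expect_equiv (Equiv.curry (Lf k) (Fin t) V)
      (fun B => ind (Good G t k (Function.curry B) ∧
        emb G t k (Function.curry B) u = emb G t k (Function.curry B) v)) _ (fun B => rfl)]
    refine fibre_bound (i, j) _ Δ fun B => ?_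
    obtain ⟨S, hS, h⟩ := emb_set hG Δ h1 hΔ t k (Function.curry B) u i j
      (emb G t k (Function.curry B) v) hu
    refine ⟨S, hS, fun B' hB' hP => h (Function.curry B') (fun i' j' hne => hB' _ hne) hP.1 ?_⟩
    rw [hP.2]
    refine emb_congr t k _ _ v fun i' j' hd => hB' (i', j') ?_
    intro he
    rw [show i' = i from congrArg Prod.fst he, show j' = j from congrArg Prod.snd he] at hd
    exact hv hd
  by_contra hcon
  apply huv
  refine dep_inj t k u v fun i j => ⟨fun hu => ?_, fun hv => ?_⟩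
  · by_contra hv
    exact hcon (key u v i j hu hv)
  · by_contra hu
    apply hcon
    simp_rw [eq_comm (a := emb G t k _ u)]
    exact key v u i j hv hu

theorem core_bound [Fintype V] [Nonempty V] [DecidableRel G.Adj] (hG : Lin G) (E : ℕ)
    (hE : 0 < E) (hd : ∀ v, E + 2 ≤ G.degree v) (t k : ℕ) (hfree : (Tw t k).Free G) :
    (E : ℝ) ^ (2 * (2 ^ k * Fintype.card (Tp t k)) + 1) ≤
      (Fintype.card (Vtx t k) : ℝ) ^ 2 *
        (Fintype.card V : ℝ) ^ (2 ^ k * Fintype.card (Tp t k)) := by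
  classical
  have hE' : (0 : ℝ) < E := by exact_mod_cast hE
  have hn : (0 : ℝ) < Fintype.card V := by exact_mod_cast Fintype.card_pos
  set n : ℝ := (Fintype.card V : ℝ) with hndef
  have hΔ : ∀ v, (G.degree v : ℝ) ≤ n / E := fun v => by
    rw [le_div_iff₀ hE', hndef]
    exact_mod_cast degree_mul_le hG E hd v
  have hEE : (E : ℝ) ≤ n / E := by
    refine le_trans ?_ (hΔ (Classical.arbitrary V))
    have := hd (Classical.arbitrary V)
    exact_mod_cast (by omega : E ≤ G.degree (Classical.arbitrary V))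
  have h1 : (1 : ℝ) ≤ n / E := le_trans (by exact_mod_cast hE) hEE
  have hE2 : (E : ℝ) ^ 2 ≤ n := by rw [le_div_iff₀ hE'] at hEE; nlinarith
  set β : ℝ := (E : ℝ) ^ 2 / n with hβ
  have hβ0 : 0 ≤ β := by positivity
  have hη : β ^ (2 ^ k) ≤ 𝔼 a : Lf k → V, ind (∃ z u, Tr G k a z u) := by
    calc β ^ (2 ^ k) ≤ ∑ _z : V, β ^ (2 ^ k) / (E : ℝ) ^ 2 := by
          rw [Finset.sum_const, nsmul_eq_mul, Finset.card_univ, ← hndef, mul_div_assoc',
            le_div_iff₀ (by positivity), mul_comm]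
          gcongr
      _ ≤ ∑ z : V, 𝔼 a : Lf k → V, ind (Tr G k a z z) :=
          Finset.sum_le_sum fun z _ => Tr_count hG E hE hd k z z
      _ = 𝔼 a : Lf k → V, ∑ z : V, ind (Tr G k a z z) := by rw [Finset.expect_sum_comm]
      _ ≤ _ := Finset.expect_le_expect fun a _ => sum_ind_le _ _ _
          (fun z _ z' _ h h' => Tr_uniq hG k a _ _ _ _ h h') (fun z _ h => ⟨z, z, h⟩)
  have hgood : (β ^ (2 ^ k)) ^ Fintype.card (Tp t k) ≤
      𝔼 A : Lf k → Fin t → V, ind (Good G t k A) := by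
    refine le_trans (pow_le_pow_left₀ (by positivity) hη _) ?_
    refine le_trans (blowup t k _ fun a => ind_nonneg _) (le_of_eq ?_)
    refine Finset.expect_congr rfl fun A _ => ?_
    rw [Good, ind_forall]
  have hbad : 𝔼 A : Lf k → Fin t → V, ind (Good G t k A) ≤
      (Fintype.card (Vtx t k) : ℝ) ^ 2 * (n / E / n) := by
    calc 𝔼 A : Lf k → Fin t → V, ind (Good G t k A)
        ≤ 𝔼 A : Lf k → Fin t → V, ∑ p ∈ (Finset.univ : Finset (Vtx t k)).offDiag,
            ind (Good G t k A ∧ emb G t k A p.1 = emb G t k A p.2) := by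
          refine Finset.expect_le_expect fun A _ => ind_le_sum _ _ _ fun hA => ?_
          by_contra hcon
          push Not at hcon
          apply hfree
          refine ⟨⟨⟨emb G t k A, fun {u v} h => ?_⟩, fun u v h => ?_⟩⟩
          · rcases adj_iff.1 h with h | h
            · exact emb_adj hG t k A hA u v h
            · exact (emb_adj hG t k A hA v u h).symm
          · by_contra hne
            exact hcon (u, v) (by simpa using hne) hA h
      _ = ∑ p ∈ (Finset.univ : Finset (Vtx t k)).offDiag, 𝔼 A : Lf k → Fin t → V,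
            ind (Good G t k A ∧ emb G t k A p.1 = emb G t k A p.2) := by
          rw [Finset.expect_sum_comm]
      _ ≤ ∑ _p ∈ (Finset.univ : Finset (Vtx t k)).offDiag, n / E / n :=
          Finset.sum_le_sum fun p hp => coincide_le hG _ h1 hΔ t k _ _
            (Finset.mem_offDiag.1 hp).2.2
      _ ≤ _ := by
          rw [Finset.sum_const, nsmul_eq_mul]
          gcongr
          rw [Finset.offDiag_card, Finset.card_univ]
          have : Fintype.card (Vtx t k) * Fintype.card (Vtx t k) - Fintype.card (Vtx t k) ≤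
            Fintype.card (Vtx t k) ^ 2 := by rw [sq]; omega
          exact_mod_cast this
  have hfin := hgood.trans hbad
  rw [← pow_mul, hβ, div_pow, ← pow_mul, show n / E / n = 1 / E by field_simp, mul_one_div,
    div_le_div_iff₀ (by positivity) hE'] at hfin
  rw [pow_succ]
  exact hfin

end Pool.Agent.MP_419040_co
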