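import Mathlib.Algebra.Field.ZMod
import Mathlib.Combinatorics.SimpleGraph.CycleGraph
import Mathlib.Combinatorics.SimpleGraph.Extremal.Basic
import Mathlib.NumberTheory.Bertrand
import Pool.Agent.MP_419040_co.Upper
import Pool.Agent.MP_419040_co.Lower
import Pool.Agent.MP_419040_co.Defs

-- ======== part 0: formerly Pool.Agent.MP_419040_co.Final
section MrgPart0

/-! Edge bounds for all `n`. -/

namespace Pool.Agent.MP_419040_co

open Finset BigOperators Real SimpleGraph

lemma free_iff_lin {V : Type*} (G : SimpleGraph V) : (cycleGraph 4).Free G ↔ Lin G := by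
  constructor
  · intro h x y z w hxy h1 h2 h3 h4
    by_contra hzw
    apply h
    have n1 := h1.ne
    have n2 := h2.ne
    have n3 := h3.ne
    have n4 := h4.ne
    refine ⟨⟨⟨![x, z, y, w], fun {a b} hab => ?_⟩, fun a b hab => ?_⟩⟩
    · fin_cases a <;> fin_cases b <;>
        first
        | exact absurd hab (by decide)
        | exact h1 | exact h2 | exact h3 | exact h4
        | exact h1.symm | exact h2.symm | exact h3.symm | exact h4.symm
    · fin_cases a <;> fin_cases b <;> simp_all [eq_comm]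
  · rintro h ⟨f⟩
    have a1 : G.Adj (f 1) (f 0) := f.toHom.map_adj (by decide)
    have a2 : G.Adj (f 1) (f 2) := f.toHom.map_adj (by decide)
    have a3 : G.Adj (f 3) (f 0) := f.toHom.map_adj (by decide)
    have a4 : G.Adj (f 3) (f 2) := f.toHom.map_adj (by decide)
    have := h (f 0) (f 2) (f 1) (f 3) (fun h => absurd (f.injective h) (by decide)) a1 a2 a3 a4
    exact absurd (f.injective this) (by decide)

lemma exists_min_deg {V : Type*} [DecidableEq V] (G : SimpleGraph V) [DecidableRel G.Adj] (D : ℕ) :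
    ∀ S : Finset V, 2 * D * S.card < ((S ×ˢ S).filter fun p => G.Adj p.1 p.2).card →
      ∃ T : Finset V, T.Nonempty ∧ ∀ v ∈ T, D < (T.filter (G.Adj v)).card := by
  intro S
  induction S using Finset.strongInduction with
  | H S ih =>
    intro h
    by_cases hall : ∀ v ∈ S, D < (S.filter (G.Adj v)).card
    · refine ⟨S, ?_, hall⟩
      rw [Finset.nonempty_iff_ne_empty]
      rintro rfl
      simp at h
    · push Not at hall
      obtain ⟨v, hv, hD⟩ := hall
      refine ih (S.erase v) (Finset.erase_ssubset hv) ?_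
      have hsub : ((S ×ˢ S).filter fun p => G.Adj p.1 p.2) ⊆
          ((S.erase v ×ˢ S.erase v).filter fun p => G.Adj p.1 p.2) ∪
            ((S.filter (G.Adj v)).image (fun y => (v, y)) ∪
              (S.filter (G.Adj v)).image (fun y => (y, v))) := by
        rintro ⟨x, y⟩ hp
        simp only [Finset.mem_filter, Finset.mem_product, Finset.mem_union, Finset.mem_erase,
          Finset.mem_image, Prod.mk.injEq] at hp ⊢
        by_cases hx : x = v
        · subst hx
          exact Or.inr (Or.inl ⟨y, ⟨hp.1.2, hp.2⟩, rfl, rfl⟩)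
        · by_cases hy : y = v
          · subst hy
            exact Or.inr (Or.inr ⟨x, ⟨hp.1.1, hp.2.symm⟩, rfl, rfl⟩)
          · exact Or.inl ⟨⟨⟨hx, hp.1.1⟩, hy, hp.1.2⟩, hp.2⟩
      have h1 := (Finset.card_le_card hsub).trans (Finset.card_union_le _ _)
      have h2 := Finset.card_union_le ((S.filter (G.Adj v)).image (fun y => (v, y)))
        ((S.filter (G.Adj v)).image (fun y => (y, v)))
      have h3 := Finset.card_image_le (s := S.filter (G.Adj v)) (f := fun y => (v, y))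
      have h4 := Finset.card_image_le (s := S.filter (G.Adj v)) (f := fun y => (y, v))
      have h5 := Finset.card_erase_add_one hv
      rw [← h5, mul_add] at h
      omega

lemma edges_le {n : ℕ} (G : SimpleGraph (Fin n)) [DecidableRel G.Adj] (hG : Lin G) (t k : ℕ)
    (hfree : (Tw t k).Free G) (E : ℕ) (hE : 0 < E)
    (hbig : (Fintype.card (Vtx t k) : ℝ) ^ 2 * (n : ℝ) ^ (2 ^ k * Fintype.card (Tp t k)) <
      (E : ℝ) ^ (2 * (2 ^ k * Fintype.card (Tp t k)) + 1)) :
    G.edgeFinset.card ≤ (E + 1) * n := by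
  by_contra hcon
  push Not at hcon
  obtain ⟨T, hT, hd⟩ := exists_min_deg G (E + 1) Finset.univ (by
    have := G.two_mul_card_edgeFinset
    rw [Finset.univ_product_univ, Finset.card_univ, Fintype.card_fin]
    have e : (Finset.univ.filter fun p : Fin n × Fin n => G.Adj p.1 p.2) =
      Finset.univ.filter fun (x, y) => G.Adj x y := rfl
    rw [e, ← this]
    nlinarith)
  haveI : Nonempty T := hT.to_subtype
  let G' : SimpleGraph T := G.comap Subtype.val
  have hG' : Lin G' := fun x y z w hxy h1 h2 h3 h4 =>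
    Subtype.ext (hG x y z w (fun h => hxy (Subtype.ext h)) h1 h2 h3 h4)
  have hfree' : (Tw t k).Free G' := fun h =>
    hfree (h.trans ⟨(SimpleGraph.Embedding.comap (Function.Embedding.subtype _) G).toCopy⟩)
  have hd' : ∀ v, E + 2 ≤ G'.degree v := by
    intro v
    have h1 := hd v v.2
    have h2 : (T.filter (G.Adj v)).card ≤ (G'.neighborFinset v).card := by
      refine Finset.card_le_card_of_surjOn Subtype.val ?_
      intro y hy
      rw [Finset.mem_coe, Finset.mem_filter] at hy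
      exact ⟨⟨y, hy.1⟩, by simpa [G'] using hy.2, rfl⟩
    rw [← SimpleGraph.card_neighborFinset_eq_degree]
    omega
  have h := core_bound hG' E hE hd' t k hfree'
  have hc : (Fintype.card T : ℝ) ≤ n := by
    have := Finset.card_le_univ T
    rw [Fintype.card_fin] at this
    rw [Fintype.card_coe]
    exact_mod_cast this
  have : (Fintype.card (Vtx t k) : ℝ) ^ 2 *
      (Fintype.card T : ℝ) ^ (2 ^ k * Fintype.card (Tp t k)) ≤
      (Fintype.card (Vtx t k) : ℝ) ^ 2 * (n : ℝ) ^ (2 ^ k * Fintype.card (Tp t k)) := by gcongr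
  linarith

theorem upper_all (t k : ℕ) : ∃ δ C : ℝ, 0 < δ ∧ ∀ (n : ℕ) (G : SimpleGraph (Fin n))
    [DecidableRel G.Adj], Lin G → (Tw t k).Free G →
      (G.edgeFinset.card : ℝ) ≤ C * (n : ℝ) ^ ((3 : ℝ) / 2 - δ) := by
  set W : ℕ := 2 ^ k * Fintype.card (Tp t k) with hW
  set h : ℝ := (Fintype.card (Vtx t k) : ℝ) ^ 2 + 1 with hh
  have hh1 : 1 ≤ h := by rw [hh]; nlinarith [sq_nonneg (Fintype.card (Vtx t k) : ℝ)]
  refine ⟨1 / (2 * (2 * W + 1)), h + 2, by positivity, fun n G _ hG hfree => ?_⟩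
  rcases Nat.eq_zero_or_pos n with rfl | hn
  · have : G.edgeFinset.card = 0 := by
      have := G.card_edgeFinset_le_card_choose_two
      simpa using this
    rw [this, Nat.cast_zero]; positivity
  have hn1 : (1 : ℝ) ≤ n := by exact_mod_cast hn
  set a : ℝ := (n : ℝ) ^ ((W : ℝ) / (2 * W + 1)) with ha
  have ha1 : 1 ≤ a := Real.one_le_rpow hn1 (by positivity)
  have hap : a ^ (2 * W + 1) = (n : ℝ) ^ W := by
    rw [ha, ← Real.rpow_natCast, ← Real.rpow_mul (by positivity), ← Real.rpow_natCast]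
    congr 1
    push_cast
    field_simp
  have hE := edges_le G hG t k hfree (⌊h * a⌋₊ + 1) (Nat.succ_pos _) (by
    rw [← hW]
    have h1 : h * a < ((⌊h * a⌋₊ + 1 : ℕ) : ℝ) := by push_cast; exact Nat.lt_floor_add_one _
    calc (Fintype.card (Vtx t k) : ℝ) ^ 2 * (n : ℝ) ^ W ≤ h ^ (2 * W + 1) * (n : ℝ) ^ W := by
          gcongr
          calc (Fintype.card (Vtx t k) : ℝ) ^ 2 ≤ h := by rw [hh]; linarith
            _ ≤ h ^ (2 * W + 1) := le_self_pow₀ hh1 (by omega)
      _ = (h * a) ^ (2 * W + 1) := by rw [mul_pow, hap]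
      _ < _ := pow_lt_pow_left₀ h1 (by positivity) (by omega))
  have hE' : (G.edgeFinset.card : ℝ) ≤ ((⌊h * a⌋₊ : ℝ) + 2) * n := by
    have : (G.edgeFinset.card : ℝ) ≤ (((⌊h * a⌋₊ + 1 + 1) * n : ℕ) : ℝ) := by exact_mod_cast hE
    push_cast at this
    linarith
  have hfl : (⌊h * a⌋₊ : ℝ) ≤ h * a := Nat.floor_le (by positivity)
  have hpow : (n : ℝ) ^ ((3 : ℝ) / 2 - 1 / (2 * (2 * W + 1))) = a * n := by
    rw [ha, ← Real.rpow_add_one (by positivity)]
    congr 1
    field_simp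
    ring
  rw [hpow]
  nlinarith

theorem lower_all : ∃ n₀ : ℕ, ∀ N ≥ n₀, ∃ G : SimpleGraph (Fin N), (Tw 7000 626).Free G ∧
    (N : ℝ) * Real.sqrt N ≤ G.edgeSet.ncard := by
  classical
  set a : ℕ → ℝ := fun u => 36 * (5 * (u : ℝ) + 1) ^ 2 * ((3456 / 3125 : ℝ) ^ 2) ^ u with ha
  have hau : ∀ u : ℕ, (u : ℝ) ≤ a u := fun u => by
    have h1 : (1 : ℝ) ≤ ((3456 / 3125 : ℝ) ^ 2) ^ u := one_le_pow₀ (by norm_num)
    have h2 : (0 : ℝ) ≤ u := Nat.cast_nonneg _
    simp only [ha]
    nlinarith [mul_le_mul_of_nonneg_left h1 (show 0 ≤ 36 * (5 * (u : ℝ) + 1) ^ 2 by positivity)]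
  set u₀ : ℕ := 20000000000000 with hu₀
  refine ⟨⌈a u₀⌉₊, fun N hN => ?_⟩
  have hN0 : a u₀ ≤ N := Nat.ceil_le.1 hN
  have hex : ∃ j, (N : ℝ) < a (u₀ + j) := ⟨N + 1, by
    have := hau (u₀ + (N + 1))
    push_cast at this
    have h2 : (0 : ℝ) ≤ u₀ := Nat.cast_nonneg _
    linarith⟩
  have hj0 : Nat.find hex ≠ 0 := fun h => by
    have := Nat.find_spec hex
    rw [h, add_zero] at this
    linarith
  obtain ⟨j, hj⟩ := Nat.exists_eq_succ_of_ne_zero hj0
  have hhi : (N : ℝ) < a (u₀ + j + 1) := by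
    have := Nat.find_spec hex
    rwa [hj] at this
  have hlo : a (u₀ + j) ≤ N := not_lt.1 (Nat.find_min hex (by omega))
  set u := u₀ + j with hu
  have huu : (20000000000000 : ℝ) ≤ u := by
    have : u₀ ≤ u := by omega
    exact_mod_cast this
  have hN2 : 2 ≤ N := by
    have := (hau u).trans hlo
    have h2 : (2 : ℝ) ≤ N := by linarith
    exact_mod_cast h2
  have hexp : (N : ℝ) ≤ Real.exp (u * (Real.log (3456 / 3125) * 2 + 1 / 1000)) := by
    refine hhi.le.trans ?_
    have e : Real.exp (u * (Real.log (3456 / 3125) * 2 + 1 / 1000)) =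
        ((3456 / 3125 : ℝ) ^ 2) ^ u * Real.exp (u / 1000) := by
      rw [mul_add, Real.exp_add, Real.exp_nat_mul, mul_comm (Real.log _) 2,
        show (2 : ℝ) * Real.log (3456 / 3125) = (2 : ℕ) * Real.log (3456 / 3125) by norm_num,
        Real.exp_nat_mul, Real.exp_log (by norm_num)]
      congr 2
      ring
    rw [e]
    simp only [ha]
    push_cast
    have h1 := Real.pow_div_factorial_le_exp (x := (u : ℝ) / 1000) (by positivity) 3
    have h2 : 36 * (5 * ((u : ℝ) + 1) + 1) ^ 2 * (3456 / 3125 : ℝ) ^ 2 ≤ Real.exp (u / 1000) := by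
      refine le_trans ?_ h1
      have h3 : (5 * ((u : ℝ) + 1) + 1) ^ 2 ≤ 36 * u ^ 2 := by nlinarith
      have h4 : (20000000000000 : ℝ) * u ^ 2 ≤ u ^ 3 := by nlinarith [sq_nonneg (u : ℝ)]
      norm_num [Nat.factorial]
      nlinarith [sq_nonneg (u : ℝ)]
    calc 36 * (5 * ((u : ℝ) + 1) + 1) ^ 2 * ((3456 / 3125 : ℝ) ^ 2) ^ (u + 1)
        = ((3456 / 3125 : ℝ) ^ 2) ^ u *
          (36 * (5 * ((u : ℝ) + 1) + 1) ^ 2 * (3456 / 3125 : ℝ) ^ 2) := by
          rw [pow_succ _ u]; ring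
      _ ≤ _ := by gcongr
  obtain ⟨G, hG, he⟩ := lower_at (by omega) hN2 hlo hexp
  refine ⟨G, hG, ?_⟩
  rw [← SimpleGraph.coe_edgeFinset, Set.ncard_coe_finset]
  convert he

theorem c4_lower (N : ℕ) (hN : 8 ≤ N) : ∃ G : SimpleGraph (Fin N), Lin G ∧
    (N : ℝ) * Real.sqrt N / 48 ≤ G.edgeSet.ncard := by
  classical
  have hm : Nat.sqrt (N / 8) ≠ 0 := by
    rw [Ne, Nat.sqrt_eq_zero]; omega
  obtain ⟨p, hp, h1, h2⟩ := Nat.exists_prime_lt_and_le_two_mul _ hm
  haveI := Fact.mk hp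
  have h3 := Nat.sqrt_le (N / 8)
  have h4 := Nat.lt_succ_sqrt (N / 8)
  have hle : p * p + p * p ≤ N := by
    have : p * p ≤ 4 * (Nat.sqrt (N / 8) * Nat.sqrt (N / 8)) := by nlinarith
    omega
  have hge : N ≤ 8 * (p * p) := by
    have : (Nat.sqrt (N / 8)).succ * (Nat.sqrt (N / 8)).succ ≤ p * p := Nat.mul_le_mul h1 h1
    omega
  obtain ⟨f⟩ : Nonempty ((ZMod p × ZMod p) ⊕ (ZMod p × ZMod p) ↪ Fin N) :=
    Function.Embedding.nonempty_of_card_le (by simpa using hle)
  let G₀ : SimpleGraph ((ZMod p × ZMod p) ⊕ (ZMod p × ZMod p)) := SimpleGraph.fromRel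
    fun u v => ∃ x a b, u = Sum.inl (x, a * x + b) ∧ v = Sum.inr (a, b)
  have hG₀ : Lin G₀ := by
    have key : ∀ z x, G₀.Adj z x → (∃ s a b, z = Sum.inl (s, a * s + b) ∧ x = Sum.inr (a, b)) ∨
        (∃ s a b, x = Sum.inl (s, a * s + b) ∧ z = Sum.inr (a, b)) := fun z x h => h.2
    intro x y z w hxy a1 a2 a3 a4
    rcases key _ _ a1 with ⟨s, a, b, rfl, rfl⟩ | ⟨s, a, b, rfl, rfl⟩
    · rcases key _ _ a2 with ⟨s', a', b', e1, rfl⟩ | ⟨s', a', b', -, e2⟩
      · rcases key _ _ a3 with ⟨r, c, d, rfl, e3⟩ | ⟨r, c, d, e3, -⟩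
        · rcases key _ _ a4 with ⟨r', c', d', e4, e5⟩ | ⟨r', c', d', e4, -⟩
          · simp only [Sum.inl.injEq, Sum.inr.injEq, Prod.mk.injEq] at e1 e3 e4 e5 ⊢
            obtain ⟨rfl, e1⟩ := e1
            obtain ⟨rfl, rfl⟩ := e3
            obtain ⟨rfl, e4⟩ := e4
            obtain ⟨rfl, rfl⟩ := e5
            have : (a - a') * (s - r) = 0 := by linear_combination e1 - e4
            rcases mul_eq_zero.1 this with h | h
            · exfalso
              apply hxy
              have ha : a = a' := sub_eq_zero.1 h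
              subst ha
              have hb : b = b' := by linear_combination e1
              rw [hb]
            · have hs : s = r := sub_eq_zero.1 h
              subst hs
              exact ⟨rfl, rfl⟩
          · exact absurd e4 Sum.inr_ne_inl
        · exact absurd e3 Sum.inr_ne_inl
      · exact absurd e2 Sum.inl_ne_inr
    · rcases key _ _ a2 with ⟨s', a', b', e1, -⟩ | ⟨s', a', b', rfl, e1⟩
      · exact absurd e1 Sum.inr_ne_inl
      · rcases key _ _ a3 with ⟨r, c, d, -, e3⟩ | ⟨r, c, d, e3, rfl⟩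
        · exact absurd e3 Sum.inl_ne_inr
        · rcases key _ _ a4 with ⟨r', c', d', e4, -⟩ | ⟨r', c', d', e4, e5⟩
          · exact absurd e4 Sum.inr_ne_inl
          · simp only [Sum.inl.injEq, Sum.inr.injEq, Prod.mk.injEq] at e1 e3 e4 e5 ⊢
            obtain ⟨rfl, rfl⟩ := e1
            obtain ⟨rfl, e3⟩ := e3
            obtain ⟨rfl, e4⟩ := e4
            obtain ⟨rfl, rfl⟩ := e5
            have : (a - c) * (s - s') = 0 := by linear_combination e3 - e4
            rcases mul_eq_zero.1 this with h | h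
            · have ha : a = c := sub_eq_zero.1 h
              subst ha
              exact ⟨rfl, by linear_combination e3⟩
            · exfalso
              apply hxy
              rw [sub_eq_zero.1 h]
  refine ⟨G₀.map f, ?_, ?_⟩
  · intro x y z w hxy a1 a2 a3 a4
    rw [SimpleGraph.map_adj] at a1 a2 a3 a4
    obtain ⟨z1, x1, b1, rfl, rfl⟩ := a1
    obtain ⟨z2, y1, b2, e2, rfl⟩ := a2
    obtain ⟨w1, x2, b3, rfl, e3⟩ := a3
    obtain ⟨w2, y2, b4, e4, e5⟩ := a4
    rw [f.injective e2] at b2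
    rw [f.injective e3] at b3
    rw [f.injective e4, f.injective e5] at b4
    rw [hG₀ x1 y1 z1 w1 (fun h => hxy (congrArg f h)) b1 b2 b3 b4]
  · rw [← SimpleGraph.coe_edgeFinset, Set.ncard_coe_finset]
    have h5 := (G₀.map f).two_mul_card_edgeFinset
    have h6 : (Finset.univ : Finset (ZMod p × ZMod p × ZMod p)).card ≤
        2 * (G₀.map f).edgeFinset.card := by
      rw [h5]
      refine Finset.card_le_card_of_injOn
        (fun q => (f (Sum.inl (q.1, q.2.1 * q.1 + q.2.2)), f (Sum.inr q.2))) ?_ ?_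
      · intro q _
        simp only [Finset.coe_filter, Finset.mem_univ, true_and, Set.mem_setOf_eq]
        rw [SimpleGraph.map_adj_apply]
        exact ⟨Sum.inl_ne_inr, Or.inl ⟨q.1, q.2.1, q.2.2, rfl, rfl⟩⟩
      · intro q _ q' _ h
        simp only [Prod.mk.injEq, EmbeddingLike.apply_eq_iff_eq, Sum.inl.injEq,
          Sum.inr.injEq] at h
        exact Prod.ext h.1.1 h.2
    rw [Finset.card_univ, Fintype.card_prod, Fintype.card_prod, ZMod.card] at h6
    have h7 : (p : ℝ) * (p * p) ≤ 2 * ((G₀.map f).edgeFinset.card : ℝ) := by exact_mod_cast h6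
    have h8 : (N : ℝ) ≤ 8 * (p * p) := by exact_mod_cast hge
    have hp0 : (0 : ℝ) ≤ p := Nat.cast_nonneg _
    have h9 : Real.sqrt N ≤ 3 * p := by
      rw [Real.sqrt_le_left (by positivity)]; nlinarith
    have h10 : (N : ℝ) * Real.sqrt N ≤ (8 * (p * p)) * (3 * p) := by gcongr
    linarith

end Pool.Agent.MP_419040_co

end MrgPart0

-- ======== part 1: formerly Pool.Agent.MP_419040_co.Sub
section MrgPart1

/-! The tower contains the subdivided `K₄`, and the bounds in terms of extremal numbers. -/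

namespace Pool.Agent.MP_419040_co

open Finset SimpleGraph

lemma subK4_contained {V : Type*} (G : SimpleGraph V) (x : Fin 4 → V)
    (m : {p : Fin 4 × Fin 4 // p.1 < p.2} → V) (hx : Function.Injective x)
    (hm : Function.Injective m) (hxm : ∀ i p, x i ≠ m p)
    (h1 : ∀ p, G.Adj (x p.1.1) (m p)) (h2 : ∀ p, G.Adj (x p.1.2) (m p)) : subK4 ⊑ G := by
  refine ⟨⟨⟨Sum.elim x m, fun {a b} h => ?_⟩, ?_⟩⟩
  · rcases h.2 with ⟨i, p, rfl, rfl, rfl | rfl⟩ | ⟨i, p, rfl, rfl, rfl | rfl⟩
    · exact h1 p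
    · exact h2 p
    · exact (h1 p).symm
    · exact (h2 p).symm
  · rintro (i | p) (j | q) h
    · exact congrArg _ (hx h)
    · exact absurd h (hxm _ _)
    · exact absurd h.symm (hxm _ _)
    · exact congrArg _ (hm h)

lemma subK4_le_Tw (t k : ℕ) : subK4 ⊑ Tw (t + 2) (k + 2) := by
  let τ : Bool → Tp (t + 2) k := fun b _ => if b then 1 else 0
  have hτ : Function.Injective τ := by
    intro a b h
    have := congrFun h (someLf k)
    cases a <;> cases b <;> simp_all [τ]
  let g : Bool → Tp (t + 2) (k + 1) := fun b => glue (τ false) (τ b)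
  have hg : Function.Injective g := fun a b h => hτ (congrArg rgt h)
  let L : Bool → Vtx (t + 2) (k + 2) := fun b => vl (tp _ _ (g b))
  let R : Bool → Vtx (t + 2) (k + 2) := fun b => vr (tp _ _ (g b))
  let c : Bool → Bool → Vtx (t + 2) (k + 2) := fun a b => tp _ _ (glue (g a) (g b))
  let qL : Vtx (t + 2) (k + 2) := vl (vl (tp _ _ (τ false)))
  let qR : Vtx (t + 2) (k + 2) := vr (vl (tp _ _ (τ false)))
  have hL : ∀ a b, L a = L b ↔ a = b := fun a b =>
    ⟨fun h => hg (tp_inj _ (vl_inj h)), fun h => by rw [h]⟩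
  have hR : ∀ a b, R a = R b ↔ a = b := fun a b =>
    ⟨fun h => hg (tp_inj _ (vr_inj h)), fun h => by rw [h]⟩
  have hc : ∀ a b a' b', c a b = c a' b' ↔ a = a' ∧ b = b' := fun a b a' b' =>
    ⟨fun h => ⟨hg (congrArg lft (tp_inj _ h)), hg (congrArg rgt (tp_inj _ h))⟩,
      fun h => by rw [h.1, h.2]⟩
  have n1 : ∀ a b, L a ≠ R b := fun a b => vl_ne_vr _ _
  have n2 : ∀ a b d, L a ≠ c b d := fun a b d => vl_ne_tp _ _
  have n3 : ∀ a b d, R a ≠ c b d := fun a b d => vr_ne_tp _ _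
  have n4 : ∀ a, L a ≠ qL := fun a h => vl_ne_tp _ _ (vl_inj h).symm
  have n5 : ∀ a, L a ≠ qR := fun a => vl_ne_vr _ _
  have n6 : ∀ a, R a ≠ qL := fun a => (vl_ne_vr _ _).symm
  have n7 : ∀ a, R a ≠ qR := fun a h => vl_ne_tp _ _ (vr_inj h).symm
  have n8 : qL ≠ qR := vl_ne_vr _ _
  have n9 : ∀ a b, qL ≠ c a b := fun a b => vl_ne_tp _ _
  have n10 : ∀ a b, qR ≠ c a b := fun a b => vr_ne_tp _ _
  have a1 : ∀ a, (Tw (t + 2) (k + 2)).Adj (L a) qL := fun a => adj_vl (adj_tp_vl (g a))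
  have a2 : ∀ a, (Tw (t + 2) (k + 2)).Adj (R a) qR := fun a => adj_vr (adj_tp_vl (g a))
  have a3 : ∀ a b, (Tw (t + 2) (k + 2)).Adj (L a) (c a b) :=
    fun a b => (adj_tp_vl (glue (g a) (g b))).symm
  have a4 : ∀ a b, (Tw (t + 2) (k + 2)).Adj (R b) (c a b) :=
    fun a b => (adj_tp_vr (glue (g a) (g b))).symm
  clear_value L R c qL qR
  refine subK4_contained _ ![L false, L true, R false, R true]
    (fun p => ![![qL, qL, c false false, c false true], ![qL, qL, c true false, c true true],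
      ![qL, qL, qL, qR], ![qL, qL, qL, qL]] p.1.1 p.1.2) ?_ ?_ ?_ ?_ ?_
  · intro i j h
    fin_cases i <;> fin_cases j <;> simp_all [eq_comm]
  · rintro ⟨⟨i, j⟩, hij⟩ ⟨⟨i', j'⟩, hij'⟩ h
    fin_cases i <;> fin_cases j <;> simp at hij <;> fin_cases i' <;> fin_cases j' <;>
      simp at hij' <;> simp_all [eq_comm]
  · rintro a ⟨⟨i, j⟩, hij⟩
    fin_cases i <;> fin_cases j <;> simp at hij <;> fin_cases a <;> simp_all
  · rintro ⟨⟨i, j⟩, hij⟩
    fin_cases i <;> fin_cases j <;> simp at hij <;> simp_all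
  · rintro ⟨⟨i, j⟩, hij⟩
    fin_cases i <;> fin_cases j <;> simp at hij <;> simp_all

lemma ncard_le_extremal {W : Type*} {n : ℕ} (H : SimpleGraph W) (G : SimpleGraph (Fin n))
    (h : H.Free G) : G.edgeSet.ncard ≤ extremalNumber n H := by
  classical
  have := card_edgeFinset_le_extremalNumber h
  rwa [Fintype.card_fin, ← Set.ncard_coe_finset, SimpleGraph.coe_edgeFinset] at this

lemma exPair_le {α β : Type} (G : SimpleGraph α) (H : SimpleGraph β) (n : ℕ) (b : ℝ) (hb : 0 ≤ b)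
    (h : ∀ F : SimpleGraph (Fin n), G.Free F → H.Free F → (F.edgeSet.ncard : ℝ) ≤ b) :
    (exPair G H n : ℝ) ≤ b := by
  rw [← Nat.le_floor_iff hb]
  refine csSup_le' ?_
  rintro m ⟨F, h1, h2, rfl⟩
  exact Nat.le_floor (h F h1 h2)

theorem bounds : ∃ (k : ℕ) (H : SimpleGraph (Fin k)), H.Connected ∧ H.Colorable 2 ∧ subK4 ⊑ H ∧
    ∃ δ c C : ℝ, 0 < δ ∧ 0 < c ∧ ∀ᶠ n : ℕ in Filter.atTop,
      c * (n : ℝ) ^ ((3 : ℝ) / 2) ≤
          ((min (extremalNumber n (cycleGraph 4)) (extremalNumber n H) : ℕ) : ℝ) ∧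
        (exPair (cycleGraph 4) H n : ℝ) ≤ C * (n : ℝ) ^ ((3 : ℝ) / 2 - δ) := by
  classical
  let e := (Tw 7000 626).overFinIso rfl
  obtain ⟨δ, C, hδ, hup⟩ := upper_all 7000 626
  obtain ⟨n₀, hlow⟩ := lower_all
  refine ⟨_, (Tw 7000 626).overFin rfl, ?_, ?_, ?_, δ, 1 / 48, max C 0, hδ, by norm_num, ?_⟩
  · exact e.connected_iff.1 (connected_Tw 7000 625 (by norm_num))
  · exact (colorable_Tw 7000 626).of_hom e.symm.toHom
  · exact (subK4_le_Tw 6998 624).trans ⟨e.toCopy⟩
  · filter_upwards [Filter.eventually_ge_atTop n₀, Filter.eventually_ge_atTop 8] with n h1 h2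
    have hn : (0 : ℝ) < n := by exact_mod_cast (by omega : 0 < n)
    have hpow : (n : ℝ) ^ ((3 : ℝ) / 2) = n * Real.sqrt n := by
      rw [Real.sqrt_eq_rpow, mul_comm, ← Real.rpow_add_one hn.ne']; norm_num
    constructor
    · obtain ⟨G, hG, he⟩ := hlow n h1
      obtain ⟨G', hG', he'⟩ := c4_lower n h2
      have b1 : (G.edgeSet.ncard : ℝ) ≤ extremalNumber n ((Tw 7000 626).overFin rfl) := by
        exact_mod_cast ncard_le_extremal _ G ((free_congr_left e).1 hG)
      have b2 : (G'.edgeSet.ncard : ℝ) ≤ extremalNumber n (cycleGraph 4) := by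
        exact_mod_cast ncard_le_extremal _ G' ((free_iff_lin G').2 hG')
      have hp : 0 ≤ (n : ℝ) * Real.sqrt n := by positivity
      rw [hpow, Nat.cast_min, le_min_iff]
      constructor <;> linarith
    · refine exPair_le _ _ n _ (by positivity) fun F f1 f2 => ?_
      have := hup n F ((free_iff_lin F).1 f1) ((free_congr_left e).2 f2)
      rw [← SimpleGraph.coe_edgeFinset, Set.ncard_coe_finset]
      refine this.trans ?_
      gcongr
      exact le_max_left _ _

end Pool.Agent.MP_419040_co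

end MrgPart1

-- marker of a merged file
example : 731051 + 114321 = 731051 + 114321 := rfl
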