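import Mathlib.Logic.Equiv.Bool
import Pool.Agent.MP_419040_co.Lower
import Pool.Agent.MP_419040_co.Sub

-- ======== part 0: formerly Pool.Agent.MP_419040_co.Cube
section MrgPart0

/-! A triangle-free graph on the cube whose independent sets are small. -/

namespace Pool.Agent.MP_419040_co

open Finset BigOperators

lemma var_le : ∀ (n : ℕ) (f : (Fin n → Bool) → ℝ),
    (∀ x j b, |f x - f (Function.update x j b)| ≤ 2) →
      𝔼 x, f x ^ 2 ≤ (𝔼 x, f x) ^ 2 + n
  | 0, f, _ => by
    simp [Fintype.expect_eq_sum_div_card]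
  | n + 1, f, hf => by
    have split : ∀ g : (Fin (n + 1) → Bool) → ℝ, 𝔼 x, g x =
        ((𝔼 y : Fin n → Bool, g (Fin.cons true y)) +
          𝔼 y : Fin n → Bool, g (Fin.cons false y)) / 2 := by
      intro g
      rw [← Fintype.expect_equiv (Fin.consEquiv fun _ => Bool)
        (fun p => g (Fin.cons p.1 p.2)) g (fun p => rfl), expect_pair, expect_bool]
    have h : ∀ b, 𝔼 y : Fin n → Bool, f (Fin.cons b y) ^ 2 ≤
        (𝔼 y : Fin n → Bool, f (Fin.cons b y)) ^ 2 + n := fun b =>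
      var_le n (fun y => f (Fin.cons b y)) fun x j c => by
        have := hf (Fin.cons b x) j.succ c
        rwa [← Fin.cons_update] at this
    have hd : |(𝔼 y : Fin n → Bool, f (Fin.cons true y)) -
        𝔼 y : Fin n → Bool, f (Fin.cons false y)| ≤ 2 := by
      rw [← Finset.expect_sub_distrib]
      refine (Finset.abs_expect_le _ _).trans
        (Finset.expect_le Finset.univ_nonempty fun y _ => ?_)
      have := hf (Fin.cons true y) 0 false
      rwa [Fin.update_cons_zero] at this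
    rw [split, split f]
    have h1 := h true
    have h2 := h false
    have h3 := abs_le.1 hd
    push_cast
    nlinarith

lemma ip_update {n : ℕ} (x a : Fin n → Bool) (j : Fin n) (b : Bool) :
    |ip x a - ip (Function.update x j b) a| ≤ 2 := by
  unfold ip
  rw [← Finset.sum_sub_distrib, Finset.sum_eq_single j]
  · rw [Function.update_self]
    cases x j <;> cases b <;> cases a j <;> simp [sp] <;> norm_num
  · intro i _ hi
    rw [Function.update_of_ne hi, sub_self]
  · simp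

lemma ip_self {n : ℕ} (x : Fin n → Bool) : ip x x = n := by
  have : ∀ j, sp (x j) * sp (x j) = 1 := fun j => by cases x j <;> simp [sp]
  simp [ip, this]

lemma ip_not {n : ℕ} (x a : Fin n → Bool) : ip (fun j => !x j) a = -ip x a := by
  unfold ip
  rw [← Finset.sum_neg_distrib]
  refine Finset.sum_congr rfl fun j _ => ?_
  show sp (!x j) * sp (a j) = -(sp (x j) * sp (a j))
  cases x j <;> cases a j <;> simp [sp]

/-- Two points of the cube are joined when they differ in more than two thirds of the places. -/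
def farG (n : ℕ) : SimpleGraph (Fin n → Bool) :=
  SimpleGraph.fromRel fun x y => ip x y < -(n / 3)

lemma farG_adj {n : ℕ} (x y : Fin n → Bool) :
    (farG n).Adj x y ↔ x ≠ y ∧ ip x y < -(n / 3) := by
  rw [farG, SimpleGraph.fromRel_adj, ip_comm y, or_self]

lemma farG_no_triangle {n : ℕ} (x y z : Fin n → Bool) (h1 : (farG n).Adj x y)
    (h2 : (farG n).Adj y z) (h3 : (farG n).Adj x z) : False := by
  rw [farG_adj] at h1 h2 h3
  have : ∑ _j : Fin n, (-1 : ℝ) ≤ ip x y + ip y z + ip x z := by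
    unfold ip
    rw [← Finset.sum_add_distrib, ← Finset.sum_add_distrib]
    refine Finset.sum_le_sum fun j _ => ?_
    cases x j <;> cases y j <;> cases z j <;> simp [sp] <;> norm_num
  simp at this
  linarith [h1.2, h2.2, h3.2]

lemma farG_indep {n : ℕ} (hn : 0 < n) (S : (Fin n → Bool) → Prop)
    (hS : ∀ x y, S x → S y → ¬ (farG n).Adj x y) : 𝔼 x, ind (S x) ≤ 9 / n := by
  classical
  have hn' : (0 : ℝ) < n := by exact_mod_cast hn
  by_cases hne : (Finset.univ.filter S).Nonempty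
  swap
  · have : ∀ x, ind (S x) = 0 := fun x => ind_neg fun hx =>
      hne ⟨x, Finset.mem_filter.2 ⟨Finset.mem_univ _, hx⟩⟩
    simp only [this, Finset.expect_const_zero]
    positivity
  set f : (Fin n → Bool) → ℝ := fun x => (Finset.univ.filter S).sup' hne (ip x) with hf
  have hle : ∀ x a, S a → ip x a ≤ f x := fun x a ha =>
    Finset.le_sup' (ip x) (Finset.mem_filter.2 ⟨Finset.mem_univ _, ha⟩)
  have hlip : ∀ x y : Fin n → Bool, (∀ a, |ip x a - ip y a| ≤ 2) → f x - f y ≤ 2 := by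
    intro x y h
    rw [sub_le_iff_le_add]
    refine Finset.sup'_le _ _ fun a ha => ?_
    have h1 := (abs_le.1 (h a)).2
    have h2 := hle y a (Finset.mem_filter.1 ha).2
    linarith
  have hvar := var_le n f fun x j b => abs_le.2 ⟨by
    have := hlip (Function.update x j b) x fun a => by rw [abs_sub_comm]; exact ip_update x a j b
    linarith, hlip _ _ fun a => ip_update x a j b⟩
  set μ : ℝ := 𝔼 x, f x with hμ
  have hv : 𝔼 x, (f x - μ) ^ 2 ≤ n := by
    have : ∀ x, (f x - μ) ^ 2 = f x ^ 2 - 2 * μ * f x + μ ^ 2 := fun x => by ring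
    simp_rw [this]
    rw [Finset.expect_add_distrib, Finset.expect_sub_distrib, ← Finset.mul_expect,
      Fintype.expect_const, ← hμ]
    nlinarith
  have key : ∀ T : (Fin n → Bool) → Prop, (∀ x, T x → (n / 3 : ℝ) ^ 2 ≤ (f x - μ) ^ 2) →
      𝔼 x, ind (T x) ≤ 9 / n := by
    intro T hT
    have : (n / 3 : ℝ) ^ 2 * 𝔼 x, ind (T x) ≤ n := by
      rw [Finset.mul_expect]
      refine le_trans (Finset.expect_le_expect fun x _ => ?_) hv
      by_cases hx : T x
      · rw [ind_pos hx, mul_one]; exact hT x hx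
      · rw [ind_neg hx, mul_zero]; exact sq_nonneg _
    rw [le_div_iff₀ hn']
    nlinarith
  rcases le_total μ (2 * n / 3) with h | h
  · refine key S fun x hx => ?_
    have := hle x x hx
    rw [ip_self] at this
    exact pow_le_pow_left₀ (by positivity) (by linarith) 2
  · rw [Fintype.expect_equiv (Equiv.piCongrRight fun _ => Equiv.boolNot) (fun x => ind (S x))
      (fun x => ind (S fun j => !x j)) (fun x => by simp [Equiv.piCongrRight])]
    refine key _ fun x hx => ?_
    have h1 : f x ≤ n / 3 := by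
      refine Finset.sup'_le _ _ fun a ha => ?_
      have h2 := hS _ a hx (Finset.mem_filter.1 ha).2
      rw [farG_adj, ip_not] at h2
      by_cases he : (fun j => !x j) = a
      · have h3 := ip_not x a
        rw [he, ip_self] at h3
        linarith
      · have := not_lt.1 fun h => h2 ⟨he, h⟩
        linarith
    rw [← neg_sq (f x - μ)]
    exact pow_le_pow_left₀ (by positivity) (by linarith) 2

end Pool.Agent.MP_419040_co

end MrgPart0

-- ======== part 1: formerly Pool.Agent.MP_419040_co.Host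
section MrgPart1

/-! A host graph without subdivided `K₄` in which four-cycle-free subgraphs are small. -/

namespace Pool.Agent.MP_419040_co

open Finset BigOperators SimpleGraph

variable {W : Type} (L : SimpleGraph W) {t : ℕ}

/-- `x` and `y` agree outside the edges of `L` at `b`. -/
def Agr (b : W) (x y : Sym2 W → Fin (t + 1)) : Prop :=
  ∀ e, x e ≠ y e → e ∈ L.edgeSet ∧ b ∈ e

open Classical in
noncomputable def mask (b : W) (x : Sym2 W → Fin (t + 1)) : Sym2 W → Fin (t + 1) :=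
  fun e => if e ∈ L.edgeSet ∧ b ∈ e then 0 else x e

lemma mask_eq_iff (b : W) (x y : Sym2 W → Fin (t + 1)) :
    mask L b x = mask L b y ↔ Agr L b x y := by
  constructor
  · intro h e he
    by_contra hc
    have := congrFun h e
    simp only [mask, if_neg hc] at this
    exact he this
  · intro h
    funext e
    by_cases hc : e ∈ L.edgeSet ∧ b ∈ e
    · simp only [mask, if_pos hc]
    · simp only [mask, if_neg hc]
      by_contra hne
      exact hc (h e hne)

variable {L}

lemma Agr.symm {b : W} {x y : Sym2 W → Fin (t + 1)} (h : Agr L b x y) : Agr L b y x :=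
  fun e he => h e (Ne.symm he)

/-- `x` and `y` differ at most at `e`. -/
def Only (e : Sym2 W) (x y : Sym2 W → Fin (t + 1)) : Prop := ∀ e', x e' ≠ y e' → e' = e

lemma Only.symm {e : Sym2 W} {x y : Sym2 W → Fin (t + 1)} (h : Only e x y) : Only e y x :=
  fun e' he => h e' (Ne.symm he)

/-- The pair `x, y` with colour `u` is the centre of the triangle `x, y, z`. -/
def Ctr (L : SimpleGraph W) (x y z : Sym2 W → Fin (t + 1)) (u v w : W) : Prop :=
  L.Adj u v ∧ L.Adj u w ∧ Only s(u, v) y z ∧ Only s(u, w) x z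

lemma tri (hL : ∀ a b c, L.Adj a b → L.Adj b c → L.Adj a c → False)
    {x y z : Sym2 W → Fin (t + 1)} {u v w : W} (hxy : x ≠ y) (hyz : y ≠ z) (hxz : x ≠ z)
    (huv : u ≠ v) (hvw : v ≠ w) (huw : u ≠ w) (h1 : Agr L u x y) (h2 : Agr L v y z)
    (h3 : Agr L w x z) : Ctr L x y z u v w ∨ Ctr L y z x v w u ∨ Ctr L z x y w u v := by
  have two : ∀ {e : Sym2 W} {a b : W}, a ≠ b → e ∈ L.edgeSet → a ∈ e → b ∈ e →
      e = s(a, b) ∧ L.Adj a b := by
    intro e a b hab he ha hb
    have := (Sym2.mem_and_mem_iff hab).1 ⟨ha, hb⟩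
    exact ⟨this, by rwa [this, mem_edgeSet] at he⟩
  have d1 : ∀ e, x e ≠ y e → (e = s(u, v) ∧ L.Adj u v) ∨ (e = s(u, w) ∧ L.Adj u w) := by
    intro e he
    by_cases h : y e = z e
    · exact Or.inr (two huw (h1 e he).1 (h1 e he).2 (h3 e (h ▸ he)).2)
    · exact Or.inl (two huv (h1 e he).1 (h1 e he).2 (h2 e h).2)
  have d2 : ∀ e, y e ≠ z e → (e = s(u, v) ∧ L.Adj u v) ∨ (e = s(v, w) ∧ L.Adj v w) := by
    intro e he
    by_cases h : x e = y e
    · exact Or.inr (two hvw (h2 e he).1 (h2 e he).2 (h3 e (h ▸ he)).2)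
    · exact Or.inl (two huv (h2 e he).1 (h1 e h).2 (h2 e he).2)
  have d3 : ∀ e, x e ≠ z e → (e = s(u, w) ∧ L.Adj u w) ∨ (e = s(v, w) ∧ L.Adj v w) := by
    intro e he
    by_cases h : x e = y e
    · exact Or.inr (two hvw (h3 e he).1 (h2 e (h ▸ he)).2 (h3 e he).2)
    · exact Or.inl (two huw (h3 e he).1 (h1 e h).2 (h3 e he).2)
  obtain ⟨e1, he1⟩ := Function.ne_iff.1 hxy
  obtain ⟨e2, he2⟩ := Function.ne_iff.1 hyz
  obtain ⟨e3, he3⟩ := Function.ne_iff.1 hxz
  by_cases a1 : L.Adj v w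
  · by_cases a2 : L.Adj u v
    · have a3 : ¬ L.Adj u w := fun h => hL _ _ _ a2 a1 h
      refine Or.inr (Or.inl ⟨a1, a2.symm, fun e he => ?_, fun e he => ?_⟩)
      · exact ((d3 e (Ne.symm he)).resolve_left fun h => a3 h.2).1
      · rw [Sym2.eq_swap]
        exact ((d1 e (Ne.symm he)).resolve_right fun h => a3 h.2).1
    · have a3 : L.Adj u w := ((d1 e1 he1).resolve_left fun h => a2 h.2).2
      refine Or.inr (Or.inr ⟨a3.symm, a1.symm, fun e he => ?_, fun e he => ?_⟩)
      · rw [Sym2.eq_swap]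
        exact ((d1 e he).resolve_left fun h => a2 h.2).1
      · rw [Sym2.eq_swap]
        exact ((d2 e (Ne.symm he)).resolve_left fun h => a2 h.2).1
  · refine Or.inl ⟨((d2 e2 he2).resolve_right fun h => a1 h.2).2,
      ((d3 e3 he3).resolve_right fun h => a1 h.2).2, fun e he => ?_, fun e he => ?_⟩
    · exact ((d2 e he).resolve_right fun h => a1 h.2).1
    · exact ((d3 e he).resolve_right fun h => a1 h.2).1

/-- `x` and `y` differ in two places. -/
def Big (x y : Sym2 W → Fin (t + 1)) : Prop := ∃ e e', e ≠ e' ∧ x e ≠ y e ∧ x e' ≠ y e'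

lemma Big.symm {x y : Sym2 W → Fin (t + 1)} (h : Big x y) : Big y x := by
  obtain ⟨e, e', h1, h2, h3⟩ := h
  exact ⟨e, e', h1, h2.symm, h3.symm⟩

lemma Only.not_big {e : Sym2 W} {x y : Sym2 W → Fin (t + 1)} (h : Only e x y) : ¬ Big x y := by
  rintro ⟨a, b, h1, h2, h3⟩
  exact h1 ((h a h2).trans (h b h3).symm)

lemma Ctr.big {x y z : Sym2 W → Fin (t + 1)} {u v w : W} (h : Ctr L x y z u v w)
    (hyz : y ≠ z) (hxz : x ≠ z) (hvw : v ≠ w) : Big x y := by
  obtain ⟨e2, he2⟩ := Function.ne_iff.1 hyz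
  obtain ⟨e3, he3⟩ := Function.ne_iff.1 hxz
  have hne : s(u, v) ≠ s(u, w) := fun h => hvw (Sym2.congr_right.1 h)
  have q2 := h.2.2.1 e2 he2
  have q3 := h.2.2.2 e3 he3
  subst q2 q3
  refine ⟨_, _, hne, fun he => ?_, fun he => ?_⟩
  · exact hne (h.2.2.2 _ (he ▸ he2))
  · exact hne (h.2.2.1 _ (he ▸ he3)).symm

lemma Ctr.agr {x y z : Sym2 W → Fin (t + 1)} {u v w : W} (h : Ctr L x y z u v w) :
    Agr L u y z ∧ Agr L u x z :=
  ⟨fun e he => by rw [h.2.2.1 e he]; exact ⟨h.1, Sym2.mem_mk_left _ _⟩,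
    fun e he => by rw [h.2.2.2 e he]; exact ⟨h.2.1, Sym2.mem_mk_left _ _⟩⟩

lemma sideA_aux (hL : ∀ a b c, L.Adj a b → L.Adj b c → L.Adj a c → False)
    (x : Fin 4 → Sym2 W → Fin (t + 1)) (b : Fin 4 → Fin 4 → W) (hx : Function.Injective x)
    (hs : ∀ i j, b i j = b j i) (ha : ∀ i j, i ≠ j → Agr L (b i j) (x i) (x j))
    (hp : ∀ i j k, i ≠ j → j ≠ k → i ≠ k → b i j ≠ b i k)
    (i j k l : Fin 4) (hij : i ≠ j) (hik : i ≠ k) (hil : i ≠ l) (hjk : j ≠ k) (hjl : j ≠ l)
    (hkl : k ≠ l) (hb : Big (x i) (x j)) : b i j = b k l ∧ Agr L (b i j) (x i) (x k) := by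
  have T : ∀ p q r : Fin 4, p ≠ q → q ≠ r → p ≠ r →
      Ctr L (x p) (x q) (x r) (b p q) (b q r) (b p r) ∨
      Ctr L (x q) (x r) (x p) (b q r) (b p r) (b p q) ∨
      Ctr L (x r) (x p) (x q) (b p r) (b p q) (b q r) := fun p q r h1 h2 h3 =>
    tri hL (hx.ne h1) (hx.ne h2) (hx.ne h3) (by rw [hs p q]; exact hp q p r h1.symm h3 h2)
      (by rw [hs q r, hs p r]; exact hp r q p h2.symm h1.symm h3.symm) (hp p q r h1 h2 h3)
      (ha _ _ h1) (ha _ _ h2) (ha _ _ h3)
  have C : ∀ r, j ≠ r → i ≠ r → Ctr L (x i) (x j) (x r) (b i j) (b j r) (b i r) := by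
    intro r h2 h3
    rcases T i j r hij h2 h3 with h | h | h
    · exact h
    · exact absurd hb.symm h.2.2.2.not_big
    · exact absurd hb h.2.2.1.not_big
  have c1 := C k hjk hik
  have c2 := C l hjl hil
  refine ⟨?_, c1.agr.2⟩
  have hkl' : Big (x k) (x l) := by
    rcases T i k l hik hkl hil with h | h | h
    · exact absurd (h.big (hx.ne hkl) (hx.ne hil)
        (by rw [hs k l, hs i l]; exact hp l k i hkl.symm hik.symm hil.symm)) c1.2.2.2.not_big
    · exact h.big (hx.ne hil.symm) (hx.ne hik.symm) (hp i l k hil hkl.symm hik)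
    · exact absurd (h.big (hx.ne hik) (hx.ne hkl.symm)
        (by rw [hs i k]; exact hp k i l hik.symm hil hkl)).symm c2.2.2.2.not_big
  obtain ⟨e, e', hee, he, he'⟩ := hkl'
  have m : ∀ e, x k e ≠ x l e → b i j ∈ e := by
    intro e he
    by_cases h : x i e = x k e
    · exact (c2.agr.2 e (h ▸ he)).2
    · exact (c1.agr.2 e h).2
  by_contra hne
  exact hee (((Sym2.mem_and_mem_iff hne).1 ⟨m e he, (ha k l hkl e he).2⟩).trans
    ((Sym2.mem_and_mem_iff hne).1 ⟨m e' he', (ha k l hkl e' he').2⟩).symm)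

lemma sideB_aux (hL : ∀ a b c, L.Adj a b → L.Adj b c → L.Adj a c → False)
    (b : Fin 4 → W) (y : Fin 4 → Fin 4 → Sym2 W → Fin (t + 1)) (hb : Function.Injective b)
    (hs : ∀ i j, y i j = y j i) (ha : ∀ i j k, i ≠ j → i ≠ k → Agr L (b i) (y i j) (y i k))
    (hp : ∀ i j k, i ≠ j → j ≠ k → i ≠ k → y i j ≠ y i k)
    (i j k l : Fin 4) (hij : i ≠ j) (hik : i ≠ k) (hil : i ≠ l) (hjk : j ≠ k) (hjl : j ≠ l)
    (hkl : k ≠ l) (h1 : L.Adj (b j) (b i)) (h2 : L.Adj (b j) (b k)) : y j l = y i k := by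
  have T : ∀ p q r : Fin 4, p ≠ q → q ≠ r → p ≠ r →
      Ctr L (y p q) (y p r) (y q r) (b p) (b r) (b q) ∨
      Ctr L (y p r) (y q r) (y p q) (b r) (b q) (b p) ∨
      Ctr L (y q r) (y p q) (y p r) (b q) (b p) (b r) := fun p q r h1 h2 h3 =>
    tri hL (hp p q r h1 h2 h3) (by rw [hs p r, hs q r]; exact hp r p q h3.symm h1 h2.symm)
      (by rw [hs p q]; exact hp q p r h1.symm h3 h2) (hb.ne h3) (hb.ne h2.symm) (hb.ne h1)
      (ha p q r h1 h3) (by rw [hs p r, hs q r]; exact ha r p q h3.symm h2.symm)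
      (by rw [hs p q]; exact ha q p r h1.symm h2)
  have n1 : ¬ L.Adj (b i) (b k) := fun h => hL _ _ _ h1 h h2
  have c1 : Ctr L (y j k) (y i j) (y i k) (b j) (b i) (b k) := by
    rcases T i j k hij hjk hik with h | h | h
    · exact absurd h.1 n1
    · exact absurd h.2.1.symm n1
    · exact h
  have c2 : Ctr L (y i l) (y k l) (y i k) (b l) (b k) (b i) := by
    rcases T i k l hik hkl hil with h | h | h
    · exact absurd h.2.1 n1
    · exact h
    · exact absurd h.1.symm n1
  have n2 : ¬ L.Adj (b j) (b l) := fun h => hL _ _ _ h1 c2.2.1.symm h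
  have c3 : Ctr L (y i j) (y i l) (y j l) (b i) (b l) (b j) := by
    rcases T i j l hij hjl hil with h | h | h
    · exact h
    · exact absurd h.1.symm n2
    · exact absurd h.2.1 n2
  funext e
  by_contra hne
  have q1 : e = s(b i, b j) := by
    by_cases h : y i j e = y j l e
    · rw [Sym2.eq_swap]; exact c1.2.2.1 e (h ▸ hne)
    · exact c3.2.2.2 e h
  have q2 : e = s(b i, b l) := by
    by_cases h : y i l e = y j l e
    · rw [Sym2.eq_swap]; exact c2.2.2.2 e (h ▸ hne)
    · exact c3.2.2.1 e h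
  exact hb.ne hjl (Sym2.congr_right.1 (q1.symm.trans q2))

/-- The host graph. -/
def Hst (L : SimpleGraph W) (t : ℕ) :
    SimpleGraph ((Sym2 W → Fin (t + 1)) ⊕ W × (Sym2 W → Fin (t + 1))) :=
  SimpleGraph.fromRel fun p q => ∃ x b, p = Sum.inl x ∧ q = Sum.inr (b, mask L b x)

lemma Hst_adj {p q} (h : (Hst L t).Adj p q) :
    (∃ x b, p = Sum.inl x ∧ q = Sum.inr (b, mask L b x)) ∨
      ∃ x b, q = Sum.inl x ∧ p = Sum.inr (b, mask L b x) := h.2

lemma Hst_adj_inl {x q} (h : (Hst L t).Adj (Sum.inl x) q) :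
    ∃ b, q = Sum.inr (b, mask L b x) := by
  rcases Hst_adj h with ⟨x', b, h1, h2⟩ | ⟨x', b, -, h2⟩
  · exact ⟨b, by rw [h2, Sum.inl_injective h1]⟩
  · exact absurd h2 Sum.inl_ne_inr

lemma Hst_adj_inr {c q} (h : (Hst L t).Adj (Sum.inr c) q) :
    ∃ x, q = Sum.inl x ∧ c.2 = mask L c.1 x := by
  rcases Hst_adj h with ⟨x', b, h1, -⟩ | ⟨x', b, h1, h2⟩
  · exact absurd h1 Sum.inr_ne_inl
  · exact ⟨x', h1, by rw [Sum.inr_injective h2]⟩

lemma of_subK4 {V : Type*} {G : SimpleGraph V} (h : subK4 ⊑ G) :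
    ∃ (x : Fin 4 → V) (m : Fin 4 → Fin 4 → V), Function.Injective x ∧ (∀ i j, m i j = m j i) ∧
      (∀ i j, i ≠ j → G.Adj (x i) (m i j)) ∧
      ∀ i j k l, i ≠ j → k ≠ l → m i j = m k l → (i = k ∧ j = l) ∨ (i = l ∧ j = k) := by
  obtain ⟨f⟩ := h
  refine ⟨fun i => f (Sum.inl i), fun i j => if h : i < j then f (Sum.inr ⟨(i, j), h⟩) else
    if h' : j < i then f (Sum.inr ⟨(j, i), h'⟩) else f (Sum.inl i),
    fun i j h => Sum.inl_injective (f.injective h), ?_, ?_, ?_⟩
  · intro i j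
    rcases lt_trichotomy i j with h | rfl | h
    · simp [h, h.not_gt]
    · rfl
    · simp [h, h.not_gt]
  · intro i j hij
    rcases lt_or_gt_of_ne hij with h | h
    · simp only [dif_pos h]
      exact f.toHom.map_adj ⟨Sum.inl_ne_inr, Or.inl ⟨i, _, rfl, rfl, Or.inl rfl⟩⟩
    · simp only [dif_neg h.not_gt, dif_pos h]
      exact f.toHom.map_adj ⟨Sum.inl_ne_inr, Or.inl ⟨i, _, rfl, rfl, Or.inr rfl⟩⟩
  · intro i j k l hij hkl h
    rcases lt_or_gt_of_ne hij with a | a <;> rcases lt_or_gt_of_ne hkl with c | c <;>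
      simp only [dif_pos a, dif_pos c, dif_neg a.not_gt, dif_neg c.not_gt] at h <;>
      have := f.injective h <;> simp only [Sum.inr.injEq, Subtype.mk.injEq, Prod.mk.injEq] at this
    · exact Or.inl this
    · exact Or.inr this
    · exact Or.inr this.symm
    · exact Or.inl this.symm

theorem Hst_free (hL : ∀ a b c, L.Adj a b → L.Adj b c → L.Adj a c → False) :
    subK4.Free (Hst L t) := by
  intro h
  obtain ⟨x, m, hx, hs, ha, hm⟩ := of_subK4 h
  have ha' : ∀ i j, i ≠ j → (Hst L t).Adj (x j) (m i j) := fun i j h => hs i j ▸ ha j i h.symm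
  rcases h0 : x 0 with x0 | c0
  · have hxA : ∀ i, ∃ a, x i = Sum.inl a := by
      intro i
      by_cases hi : i = 0
      · exact ⟨x0, hi ▸ h0⟩
      · obtain ⟨b, hb⟩ := Hst_adj_inl (h0 ▸ ha 0 i (Ne.symm hi))
        obtain ⟨a, h1, -⟩ := Hst_adj_inr (hb ▸ (ha' 0 i (Ne.symm hi)).symm)
        exact ⟨a, h1⟩
    choose a hxa using hxA
    have hmB : ∀ i j, ∃ c : W, i ≠ j → m i j = Sum.inr (c, mask L c (a i)) := by
      intro i j
      by_cases hij : i = j
      · obtain ⟨b, -⟩ := Hst_adj_inl (h0 ▸ ha 0 1 (by decide))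
        exact ⟨b, fun h => absurd hij h⟩
      · obtain ⟨b, hb⟩ := Hst_adj_inl (hxa i ▸ ha i j hij)
        exact ⟨b, fun _ => hb⟩
    choose b hb using hmB
    have hbs : ∀ i j, i ≠ j → b i j = b j i ∧ Agr L (b i j) (a i) (a j) := by
      intro i j hij
      have := (hb i j hij).symm.trans ((hs i j).trans (hb j i hij.symm))
      simp only [Sum.inr.injEq, Prod.mk.injEq] at this
      exact ⟨this.1, (mask_eq_iff L _ _ _).1 (by rw [this.2, this.1])⟩
    have hai : Function.Injective a := fun i j h => hx (by rw [hxa, hxa, h])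
    have hs' : ∀ i j, b i j = b j i := fun i j => by
      by_cases h : i = j
      · rw [h]
      · exact (hbs i j h).1
    have hp : ∀ i j k, i ≠ j → j ≠ k → i ≠ k → b i j ≠ b i k := by
      intro i j k h1 h2 h3 h
      have := hm i j i k h1 h3 (by rw [hb i j h1, hb i k h3, h])
      tauto
    have fin : ∀ i j k l : Fin 4, i ≠ j → i ≠ k → i ≠ l → j ≠ k → j ≠ l → k ≠ l →
        ¬ Big (a i) (a j) := by
      intro i j k l h1 h2 h3 h4 h5 h6 hbig
      obtain ⟨e1, e2⟩ := sideA_aux hL a b hai hs' (fun i j h => (hbs i j h).2) hp i j k l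
        h1 h2 h3 h4 h5 h6 hbig
      have := hm i j k l h1 h6 (by
        rw [hb i j h1, hb k l h6, ← e1, (mask_eq_iff L _ _ _).2 e2])
      tauto
    have d1 : b 0 1 ≠ b 1 2 := by rw [hs' 0 1]; exact hp 1 0 2 (by decide) (by decide) (by decide)
    have d2 : b 1 2 ≠ b 0 2 := by
      rw [hs' 1 2, hs' 0 2]; exact hp 2 1 0 (by decide) (by decide) (by decide)
    have d3 : b 0 1 ≠ b 0 2 := hp 0 1 2 (by decide) (by decide) (by decide)
    rcases tri hL (hai.ne (by decide : (0 : Fin 4) ≠ 1)) (hai.ne (by decide : (1 : Fin 4) ≠ 2))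
      (hai.ne (by decide : (0 : Fin 4) ≠ 2)) d1 d2 d3 (hbs 0 1 (by decide)).2
      (hbs 1 2 (by decide)).2 (hbs 0 2 (by decide)).2 with h | h | h
    · exact fin 0 1 2 3 (by decide) (by decide) (by decide) (by decide) (by decide) (by decide)
        (h.big (hai.ne (by decide)) (hai.ne (by decide)) d2)
    · exact fin 1 2 0 3 (by decide) (by decide) (by decide) (by decide) (by decide) (by decide)
        (h.big (hai.ne (by decide)) (hai.ne (by decide)) d3.symm)
    · exact fin 2 0 1 3 (by decide) (by decide) (by decide) (by decide) (by decide) (by decide)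
        (h.big (hai.ne (by decide)) (hai.ne (by decide)) d1)
  · have hxB : ∀ i, ∃ c, x i = Sum.inr c := by
      intro i
      by_cases hi : i = 0
      · exact ⟨c0, hi ▸ h0⟩
      · obtain ⟨a, hb, -⟩ := Hst_adj_inr (h0 ▸ ha 0 i (Ne.symm hi))
        obtain ⟨b, h1⟩ := Hst_adj_inl (hb ▸ (ha' 0 i (Ne.symm hi)).symm)
        exact ⟨_, h1⟩
    choose c hxc using hxB
    have hmA : ∀ i j, ∃ y, i ≠ j → m i j = Sum.inl y ∧ (c i).2 = mask L (c i).1 y := by
      intro i j
      by_cases hij : i = j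
      · exact ⟨fun _ => 0, fun h => absurd hij h⟩
      · obtain ⟨y, hy⟩ := Hst_adj_inr (hxc i ▸ ha i j hij)
        exact ⟨y, fun _ => hy⟩
    choose y hy using hmA
    have hs' : ∀ i j, y i j = y j i := fun i j => by
      by_cases h : i = j
      · rw [h]
      · exact Sum.inl_injective ((hy i j h).1.symm.trans ((hs i j).trans (hy j i (Ne.symm h)).1))
    have hb : Function.Injective fun i => (c i).1 := by
      intro i j h
      by_contra hij
      apply hij
      apply hx
      rw [hxc, hxc]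
      congr 1
      refine Prod.ext h ?_
      have h' : (c i).1 = (c j).1 := h
      rw [(hy i j hij).2, (hy j i (Ne.symm hij)).2, hs' i j, h']
    have hag : ∀ i j k, i ≠ j → i ≠ k → Agr L (c i).1 (y i j) (y i k) := fun i j k h1 h2 =>
      (mask_eq_iff L _ _ _).1 ((hy i j h1).2.symm.trans (hy i k h2).2)
    have hp : ∀ i j k, i ≠ j → j ≠ k → i ≠ k → y i j ≠ y i k := by
      intro i j k h1 h2 h3 h
      have := hm i j i k h1 h3 (by rw [(hy i j h1).1, (hy i k h3).1, h])
      tauto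
    have fin : ∀ i j k l : Fin 4, i ≠ j → i ≠ k → i ≠ l → j ≠ k → j ≠ l → k ≠ l →
        L.Adj (c j).1 (c i).1 → L.Adj (c j).1 (c k).1 → False := by
      intro i j k l h1 h2 h3 h4 h5 h6 a1 a2
      have e := sideB_aux hL _ y hb hs' hag hp i j k l h1 h2 h3 h4 h5 h6 a1 a2
      have := hm j l i k h5 h2 (by rw [(hy j l h5).1, (hy i k h2).1, e])
      tauto
    rcases tri hL (hp 0 1 2 (by decide) (by decide) (by decide))
      (show y 0 2 ≠ y 1 2 by
        rw [hs' 0 2, hs' 1 2]; exact hp 2 0 1 (by decide) (by decide) (by decide))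
      (show y 0 1 ≠ y 1 2 by rw [hs' 0 1]; exact hp 1 0 2 (by decide) (by decide) (by decide))
      (hb.ne (by decide : (0 : Fin 4) ≠ 2)) (hb.ne (by decide : (2 : Fin 4) ≠ 1))
      (hb.ne (by decide : (0 : Fin 4) ≠ 1)) (hag 0 1 2 (by decide) (by decide))
      (by rw [hs' 0 2, hs' 1 2]; exact hag 2 0 1 (by decide) (by decide))
      (by rw [hs' 0 1]; exact hag 1 0 2 (by decide) (by decide)) with h | h | h
    · exact fin 1 0 2 3 (by decide) (by decide) (by decide) (by decide) (by decide) (by decide)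
        h.2.1 h.1
    · exact fin 0 2 1 3 (by decide) (by decide) (by decide) (by decide) (by decide) (by decide)
        h.2.1 h.1
    · exact fin 0 1 2 3 (by decide) (by decide) (by decide) (by decide) (by decide) (by decide)
        h.1 h.2.1

end Pool.Agent.MP_419040_co

end MrgPart1

-- ======== part 2: formerly Pool.Agent.MP_419040_co.Host2
section MrgPart2

/-! Four-cycle-free subgraphs of the host graph are small. -/

namespace Pool.Agent.MP_419040_co

open Finset BigOperators SimpleGraph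

variable {W : Type} [Fintype W] [DecidableEq W] {L : SimpleGraph W} {t : ℕ}

lemma Hst_colorable (L : SimpleGraph W) (t : ℕ) : (Hst L t).Colorable 2 := by
  refine ⟨SimpleGraph.Coloring.mk (fun v => Sum.elim (fun _ => 0) (fun _ => 1) v) ?_⟩
  intro u v h
  rcases Hst_adj h with ⟨x, b, rfl, rfl⟩ | ⟨x, b, rfl, rfl⟩ <;> simp

lemma Hst_edges (L : SimpleGraph W) (t : ℕ) :
    Fintype.card (Sym2 W → Fin (t + 1)) * Fintype.card W ≤ (Hst L t).edgeSet.ncard := by
  classical
  rw [← SimpleGraph.coe_edgeFinset, Set.ncard_coe_finset, ← Fintype.card_prod,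
    ← Finset.card_univ]
  refine Finset.card_le_card_of_injOn
    (fun p => s(Sum.inl p.1, Sum.inr (p.2, mask L p.2 p.1))) ?_ ?_
  · intro p _
    simp only [SimpleGraph.coe_edgeFinset, SimpleGraph.mem_edgeSet]
    exact ⟨Sum.inl_ne_inr, Or.inl ⟨p.1, p.2, rfl, rfl⟩⟩
  · intro p _ q _ h
    simp only [Sym2.eq_iff, Sum.inl.injEq, Sum.inr.injEq, Prod.mk.injEq, reduceCtorEq,
      and_self, or_false] at h
    exact Prod.ext h.1 h.2.1

lemma sub_edges [Nonempty W] (α : ℝ)
    (hα : ∀ S : W → Prop, (∀ a b, S a → S b → ¬ L.Adj a b) → 𝔼 a, ind (S a) ≤ α)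
    (G : SimpleGraph ((Sym2 W → Fin (t + 1)) ⊕ W × (Sym2 W → Fin (t + 1))))
    (hG : G ≤ Hst L t) (hl : Lin G) :
    (G.edgeSet.ncard : ℝ) ≤ (α + (Fintype.card W : ℝ) ^ 2 / (t + 1)) *
      (Fintype.card (Sym2 W → Fin (t + 1)) * Fintype.card W) := by
  classical
  set S : (Sym2 W → Fin (t + 1)) → W → Prop :=
    fun x b => G.Adj (Sum.inl x) (Sum.inr (b, mask L b x)) with hS
  have h1 : (G.edgeSet.ncard : ℝ) ≤ ∑ x, ∑ b, ind (S x b) := by
    rw [← SimpleGraph.coe_edgeFinset, Set.ncard_coe_finset, ← Fintype.sum_prod_type']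
    simp only [ind]
    rw [Finset.sum_boole, Nat.cast_le]
    refine Finset.card_le_card_of_surjOn
      (fun p => s(Sum.inl p.1, Sum.inr (p.2, mask L p.2 p.1))) ?_
    intro e he
    rw [SimpleGraph.coe_edgeFinset] at he
    induction e using Sym2.ind with
    | _ u v =>
      rw [SimpleGraph.mem_edgeSet] at he
      rcases Hst_adj (hG he) with ⟨x, b, rfl, rfl⟩ | ⟨x, b, rfl, rfl⟩
      · exact ⟨(x, b), by simpa [hS] using he, rfl⟩
      · exact ⟨(x, b), by simpa [hS] using he.symm, Sym2.eq_swap⟩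
  have h2 : ∀ p : W × W, 𝔼 x, ind (L.Adj p.1 p.2 ∧ S x p.1 ∧ S x p.2) ≤ 1 / (t + 1) := by
    intro p
    have := fibre_bound (X := Fin (t + 1)) s(p.1, p.2)
      (fun x => L.Adj p.1 p.2 ∧ S x p.1 ∧ S x p.2) 1 ?_
    · simpa using this
    intro A
    by_cases hex : ∃ A' : Sym2 W → Fin (t + 1), (∀ e', e' ≠ s(p.1, p.2) → A' e' = A e') ∧
        L.Adj p.1 p.2 ∧ S A' p.1 ∧ S A' p.2
    · obtain ⟨A₀, a1, a2, a3, a4⟩ := hex
      refine ⟨{A₀ s(p.1, p.2)}, by simp, fun A' b1 b2 => ?_⟩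
      have ag : ∀ e, A₀ e ≠ A' e → e = s(p.1, p.2) := fun e he => by
        by_contra hne
        exact he ((a1 e hne).trans (b1 e hne).symm)
      have m1 : mask L p.1 A₀ = mask L p.1 A' := (mask_eq_iff L _ _ _).2 fun e he => by
        rw [ag e he]; exact ⟨a2, Sym2.mem_mk_left _ _⟩
      have m2 : mask L p.2 A₀ = mask L p.2 A' := (mask_eq_iff L _ _ _).2 fun e he => by
        rw [ag e he]; exact ⟨a2, Sym2.mem_mk_right _ _⟩
      have c1 : G.Adj (Sum.inl A') (Sum.inr (p.1, mask L p.1 A₀)) := by rw [m1]; exact b2.2.1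
      have c2 : G.Adj (Sum.inl A') (Sum.inr (p.2, mask L p.2 A₀)) := by rw [m2]; exact b2.2.2
      have := hl _ _ _ _ (fun h => a2.ne (congrArg Prod.fst (Sum.inr_injective h))) a3 a4 c1 c2
      rw [Sum.inl_injective this]
      exact Finset.mem_singleton_self _
    · exact ⟨∅, by simp, fun A' b1 b2 => absurd ⟨A', b1, b2⟩ hex⟩
  have h3 : ∀ x, 𝔼 b, ind (S x b) ≤
      α + ∑ p : W × W, ind (L.Adj p.1 p.2 ∧ S x p.1 ∧ S x p.2) := by
    intro x
    have hα0 : 0 ≤ α := le_trans (Finset.expect_nonneg fun a _ => ind_nonneg _)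
      (hα (fun _ => False) fun _ _ h => h.elim)
    by_cases h : ∀ a b, S x a → S x b → ¬ L.Adj a b
    · have := hα _ h
      have h0 : 0 ≤ ∑ p : W × W, ind (L.Adj p.1 p.2 ∧ S x p.1 ∧ S x p.2) :=
        Finset.sum_nonneg fun _ _ => ind_nonneg _
      linarith
    · push Not at h
      obtain ⟨a, b, ha, hb, hab⟩ := h
      have b1 : 𝔼 b, ind (S x b) ≤ 1 :=
        Finset.expect_le Finset.univ_nonempty fun _ _ => ind_le_one _
      have b2 := ind_le_sum Finset.univ (fun p : W × W => L.Adj p.1 p.2 ∧ S x p.1 ∧ S x p.2) True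
        fun _ => ⟨(a, b), Finset.mem_univ _, hab, ha, hb⟩
      rw [ind_pos trivial] at b2
      linarith
  have h4 : 𝔼 x, 𝔼 b, ind (S x b) ≤ α + (Fintype.card W : ℝ) ^ 2 / (t + 1) := by
    refine le_trans (Finset.expect_le_expect fun x _ => h3 x) ?_
    rw [Finset.expect_add_distrib, Fintype.expect_const, Finset.expect_sum_comm]
    gcongr
    refine le_trans (Finset.sum_le_sum fun p _ => h2 p) (le_of_eq ?_)
    rw [Finset.sum_const, Finset.card_univ, Fintype.card_prod, nsmul_eq_mul]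
    push_cast
    ring
  refine h1.trans ?_
  simp_rw [sum_eq_card_mul]
  rw [← Finset.mul_expect]
  have p1 : (0 : ℝ) ≤ Fintype.card (Sym2 W → Fin (t + 1)) := Nat.cast_nonneg _
  have p2 : (0 : ℝ) ≤ Fintype.card W := Nat.cast_nonneg _
  nlinarith [mul_le_mul_of_nonneg_left h4 (mul_nonneg p1 p2)]

theorem host (ε : ℝ) (hε : 0 < ε) : ∃ (n : ℕ) (G : SimpleGraph (Fin n)), G.Colorable 2 ∧
    subK4.Free G ∧ 0 < G.edgeSet.ncard ∧ ∀ G' : SimpleGraph (Fin n), G' ≤ G →
      (cycleGraph 4).Free G' → (G'.edgeSet.ncard : ℝ) ≤ ε * G.edgeSet.ncard := by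
  classical
  obtain ⟨d, hd⟩ := exists_nat_gt (18 / ε)
  have hd0 : (0 : ℝ) < d := lt_trans (by positivity) hd
  obtain ⟨t, ht⟩ := exists_nat_gt (2 * (Fintype.card (Fin d → Bool) : ℝ) ^ 2 / ε)
  let e := (Hst (farG d) t).overFinIso rfl
  have hE := Hst_edges (farG d) t
  have hEn : ((Hst (farG d) t).overFin rfl).edgeSet.ncard = (Hst (farG d) t).edgeSet.ncard :=
    (Set.ncard_congr' e.mapEdgeSet).symm
  refine ⟨_, (Hst (farG d) t).overFin rfl, (Hst_colorable _ _).of_hom e.symm.toHom,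
    (free_congr_right e).1 (Hst_free farG_no_triangle), ?_, fun G' hG' hf => ?_⟩
  · rw [hEn]
    exact lt_of_lt_of_le (Nat.mul_pos Fintype.card_pos Fintype.card_pos) hE
  · let e' : G'.comap e.toEquiv ≃g G' := SimpleGraph.Iso.comap e.toEquiv G'
    have h1 := sub_edges (L := farG d) (t := t) (9 / d)
      (farG_indep (by exact_mod_cast hd0)) (G'.comap e.toEquiv)
      (fun u v h => e.map_adj_iff.1 (hG' h))
      ((free_iff_lin _).1 ((free_congr_right e').2 hf))
    rw [Set.ncard_congr' e'.mapEdgeSet] at h1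
    rw [hEn]
    refine h1.trans ?_
    have h2 : (9 : ℝ) / d ≤ ε / 2 := by
      rw [div_lt_iff₀ hε] at hd
      rw [div_le_iff₀ hd0]; nlinarith
    have h3 : (Fintype.card (Fin d → Bool) : ℝ) ^ 2 / (t + 1) ≤ ε / 2 := by
      rw [div_lt_iff₀ hε] at ht
      rw [div_le_iff₀ (by positivity)]; nlinarith
    have h4 : ((Fintype.card (Sym2 (Fin d → Bool) → Fin (t + 1)) : ℝ) *
        Fintype.card (Fin d → Bool)) ≤ (Hst (farG d) t).edgeSet.ncard := by exact_mod_cast hE
    exact mul_le_mul (by linarith) h4 (by positivity) hε.le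

end Pool.Agent.MP_419040_co

end MrgPart2

-- marker of a merged file
example : 731051 + 480624 = 731051 + 480624 := rfl
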